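import Pool.Agent.Lib.MP_216314_pr.H.HStep
import Pool.Agent.Lib.MP_216314_pr.S.SMkR

/-!
# The invariant: regions connected by open tiles are the regions connected by the noncrossing involution

Time `T`: slab `T / (2 n)`, number of tiles done in the slab `T % (2 n)`. `tile n T`: the tile processed at time `T`. The letter (its column) is present iff the tile is
open and the column even, or closed and the column odd.
-/

set_option autoImplicit false

noncomputable section

namespace FKH

open Finset QS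

/-- the tile of time `T` -/
def tile (n T : ℕ) : ℕ × ℕ := tt n (T / (2 * n)) (T % (2 * n))

/-- the processed tiles at time `T` -/
def PT (n T : ℕ) : Finset (ℕ × ℕ) := PS n (T / (2 * n)) (T % (2 * n))

/-- the relation of the odd regions at time `T` -/
def RT (n T : ℕ) (c : Finset (ℕ × ℕ)) (k l : ℕ) : Prop := RG n (T / (2 * n)) (T % (2 * n)) c k l

/-- the relation of the site `u` to the odd regions at time `T` -/
def MT (n T : ℕ) (c : Finset (ℕ × ℕ)) (u : ℕ × ℕ) (k : ℕ) : Prop := MK n (T / (2 * n)) (T % (2 * n)) c u k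

/-- the letter of the tile is present -/
def ltr (c : Finset (ℕ × ℕ)) (t : ℕ × ℕ) : Prop := (t.1 % 2 = 0 ∧ t ∈ c) ∨ (t.1 % 2 = 1 ∧ t ∉ c)

instance (c : Finset (ℕ × ℕ)) (t : ℕ × ℕ) : Decidable (ltr c t) := by
  unfold ltr
  infer_instance

/-- involution at time `T` -/
def st (n : ℕ) (c : Finset (ℕ × ℕ)) : ℕ → (ℕ → ℕ)
  | 0 => sg0
  | T + 1 => if ltr c (tile n T) then act (tile n T).1 (st n c T) else st n c T

/-- marked state at time `T0 + t` -/
def ms (n : ℕ) (c : Finset (ℕ × ℕ)) (T0 : ℕ) : ℕ → Option ((ℕ → ℕ) × ℕ)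
  | 0 => some (st n c T0, 1)
  | t + 1 => if ltr c (tile n (T0 + t)) then stp (tile n (T0 + t)).1 (ms n c T0 t) else ms n c T0 t

theorem time_succ {n : ℕ} (hn : 1 ≤ n) (T : ℕ) :
    (T % (2 * n) + 1 < 2 * n ∧ (T + 1) / (2 * n) = T / (2 * n) ∧ (T + 1) % (2 * n) = T % (2 * n) + 1) ∨
    (T % (2 * n) + 1 = 2 * n ∧ (T + 1) / (2 * n) = T / (2 * n) + 1 ∧ (T + 1) % (2 * n) = 0) := by
  have h1 := Nat.div_add_mod T (2 * n)
  have h2 := Nat.mod_lt T (by omega : 0 < 2 * n)
  by_cases h : T % (2 * n) + 1 < 2 * n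
  · left
    have h3 : T + 1 = (T % (2 * n) + 1) + (2 * n) * (T / (2 * n)) := by omega
    refine ⟨h, ?_, ?_⟩
    · conv_lhs => rw [h3]
      rw [Nat.add_mul_div_left _ _ (by omega), Nat.div_eq_of_lt h, zero_add]
    · conv_lhs => rw [h3]
      rw [Nat.add_mul_mod_self_left, Nat.mod_eq_of_lt h]
  · right
    have h4 : T % (2 * n) + 1 = 2 * n := by omega
    have h3 : T + 1 = (2 * n) * (T / (2 * n) + 1) := by
      rw [Nat.mul_add, mul_one]
      omega
    refine ⟨h4, ?_, ?_⟩
    · conv_lhs => rw [h3]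
      rw [Nat.mul_div_cancel_left _ (by omega)]
    · rw [h3]
      exact Nat.mul_mod_right _ _

theorem mod_lt {n : ℕ} (hn : 1 ≤ n) (T : ℕ) : T % (2 * n) < 2 * n := Nat.mod_lt T (by omega)

theorem PT_succ {n : ℕ} (hn : 1 ≤ n) (T : ℕ) : PT n (T + 1) = insert (tile n T) (PT n T) := by
  have h1 := PS_succ (h := T / (2 * n)) (mod_lt hn T)
  unfold PT tile tt
  rw [← h1]
  rcases time_succ hn T with ⟨_, h2, h3⟩ | ⟨h4, h2, h3⟩
  · rw [h2, h3]
  · rw [h2, h3, h4, PS_next]

theorem tile_notMem {n : ℕ} (hn : 1 ≤ n) (T : ℕ) : tile n T ∉ PT n T := not_mem_PS (mod_lt hn T)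

theorem PT_zero (n : ℕ) : PT n 0 = ∅ := by
  unfold PT
  rw [Nat.zero_div, Nat.zero_mod]
  exact PS_zero n

theorem PT_mono {n : ℕ} (hn : 1 ≤ n) {T T' : ℕ} (h : T ≤ T') : PT n T ⊆ PT n T' := by
  induction T', h using Nat.le_induction with
  | base => exact Subset.refl _
  | succ T' _ ih =>
    rw [PT_succ hn]
    exact ih.trans (subset_insert _ _)

theorem tile_mem {n : ℕ} (hn : 1 ≤ n) {T T' : ℕ} (h : T < T') : tile n T ∈ PT n T' := by
  refine PT_mono hn h ?_
  rw [PT_succ hn]
  exact mem_insert_self _ _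

theorem tile_fst {n : ℕ} (hn : 1 ≤ n) (T : ℕ) : 1 ≤ (tile n T).1 ∧ (tile n T).1 ≤ 2 * n := jj_bd (mod_lt hn T)

/-- the state depends on the tiles processed before only -/
theorem st_congr {n : ℕ} (hn : 1 ≤ n) {c c' : Finset (ℕ × ℕ)} (T : ℕ)
    (h : ∀ t ∈ PT n T, (t ∈ c ↔ t ∈ c')) : st n c T = st n c' T := by
  induction T with
  | zero => rfl
  | succ T ih =>
    have h1 := ih (fun t ht => h t (PT_mono hn (Nat.le_succ T) ht))
    have h2 := h _ (tile_mem hn (Nat.lt_succ_self T))
    have h3 : ltr c (tile n T) ↔ ltr c' (tile n T) := by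
      unfold ltr
      rw [h2]
    show (if ltr c (tile n T) then _ else _) = (if ltr c' (tile n T) then _ else _)
    simp only [h1, h3]

theorem ms_congr {n : ℕ} (hn : 1 ≤ n) {c c' : Finset (ℕ × ℕ)} (T0 t : ℕ)
    (h : ∀ t' ∈ PT n (T0 + t), (t' ∈ c ↔ t' ∈ c')) : ms n c T0 t = ms n c' T0 t := by
  induction t with
  | zero =>
    show some (st n c T0, 1) = some (st n c' T0, 1)
    rw [st_congr hn T0 h]
  | succ t ih =>
    have h1 := ih (fun t' ht => h t' (PT_mono hn (Nat.le_succ (T0 + t)) ht))
    have h2 := h _ (tile_mem hn (Nat.lt_succ_self (T0 + t)))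
    have h3 : ltr c (tile n (T0 + t)) ↔ ltr c' (tile n (T0 + t)) := by
      unfold ltr
      rw [h2]
    show (if ltr c (tile n (T0 + t)) then _ else _) = (if ltr c' (tile n (T0 + t)) then _ else _)
    simp only [h1, h3]

theorem RT_succ {n : ℕ} (hn : 1 ≤ n) (T : ℕ) (c : Finset (ℕ × ℕ)) {k l : ℕ} (hk : k % 2 = 1)
    (hk' : k ≤ 2 * n + 1) (hl : l % 2 = 1) (hl' : l ≤ 2 * n + 1) :
    RT n (T + 1) c k l ↔ RG n (T / (2 * n)) (T % (2 * n) + 1) c k l := by
  unfold RT
  rcases time_succ hn T with ⟨_, h2, h3⟩ | ⟨h4, h2, h3⟩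
  · rw [h2, h3]
  · rw [h2, h3, h4, RG_next n _ c hk hk' hl hl']

theorem MT_succ {n : ℕ} (hn : 1 ≤ n) (T : ℕ) (c : Finset (ℕ × ℕ)) (u : ℕ × ℕ) {l : ℕ} (hl : l % 2 = 1)
    (hl' : l ≤ 2 * n + 1) :
    MT n (T + 1) c u l ↔ MK n (T / (2 * n)) (T % (2 * n) + 1) c u l := by
  unfold MT
  rcases time_succ hn T with ⟨_, h2, h3⟩ | ⟨h4, h2, h3⟩
  · rw [h2, h3]
  · rw [h2, h3, h4, MK_next n _ c u hl hl']

theorem st_nc {n : ℕ} (hn : 1 ≤ n) (c : Finset (ℕ × ℕ)) (T : ℕ) : IsNC (2 * n + 2) (st n c T) := by
  induction T with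
  | zero => exact sg0_nc n
  | succ T ih =>
    have h1 := tile_fst hn T
    show IsNC (2 * n + 2) (if ltr c (tile n T) then act (tile n T).1 (st n c T) else st n c T)
    split_ifs
    · exact act_nc ih h1.1 (by omega)
    · exact ih

theorem st_succ_of {n : ℕ} {c : Finset (ℕ × ℕ)} {T : ℕ} (h : ltr c (tile n T)) :
    st n c (T + 1) = act (tile n T).1 (st n c T) := by
  show (if ltr c (tile n T) then _ else _) = _
  rw [if_pos h]

theorem st_succ_not {n : ℕ} {c : Finset (ℕ × ℕ)} {T : ℕ} (h : ¬ ltr c (tile n T)) :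
    st n c (T + 1) = st n c T := by
  show (if ltr c (tile n T) then _ else _) = _
  rw [if_neg h]

/-- decomposition of a set of tiles processed before time `T + 1` -/
theorem split_c {n : ℕ} (hn : 1 ≤ n) {T : ℕ} {c : Finset (ℕ × ℕ)} (hc : c ⊆ PT n (T + 1)) :
    c ⊆ PT n T ∨ ∃ c0, c0 ⊆ PT n T ∧ c = insert (tile n T) c0 := by
  rw [PT_succ hn] at hc
  by_cases h : tile n T ∈ c
  · right
    refine ⟨c.erase (tile n T), ?_, (insert_erase h).symm⟩
    intro t ht
    rw [mem_erase] at ht
    exact (mem_insert.1 (hc ht.2)).resolve_left ht.1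
  · left
    intro t ht
    refine (mem_insert.1 (hc ht)).resolve_left ?_
    intro he
    rw [he] at ht
    exact h ht

theorem inv_st {n : ℕ} (hn : 1 ≤ n) (T : ℕ) : ∀ {c : Finset (ℕ × ℕ)}, c ⊆ PT n T → ∀ {k l : ℕ},
    k % 2 = 1 → k ≤ 2 * n + 1 → l % 2 = 1 → l ≤ 2 * n + 1 → (RT n T c k l ↔ Rl (st n c T) k l) := by
  induction T with
  | zero =>
    intro c hc k l hk hk' hl hl'
    rw [PT_zero, subset_empty] at hc
    rw [hc]
    unfold RT
    rw [Nat.zero_div, Nat.zero_mod, RG_zero hk hk' hl hl']
    show k = l ↔ Rl sg0 k l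
    constructor
    · intro h
      rw [h]
      exact Rl_refl _ _
    · unfold Rl Rl0 sg0
      rintro (⟨h1, h2⟩ | ⟨h1, h2⟩)
      · by_contra hne
        have h3 := h2 l (by omega) le_rfl
        rw [if_pos hl] at h3
        omega
      · by_contra hne
        have h3 := h2 k (by omega) le_rfl
        rw [if_pos hk] at h3
        omega
  | succ T ih =>
    intro c hc k l hk hk' hl hl'
    have hi' := mod_lt hn T
    have hb := tile_fst hn T
    have hj : (tile n T).1 = jj n (T / (2 * n)) (T % (2 * n)) := rfl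
    rw [RT_succ hn T c hk hk' hl hl']
    rcases split_c hn hc with hc0 | ⟨c0, hc0, rfl⟩
    · -- closed
      have hnt : tile n T ∉ c := fun h => tile_notMem hn T (hc0 h)
      rcases Nat.mod_two_eq_zero_or_one (tile n T).1 with hp | hp
      · have h1 : ¬ ltr c (tile n T) := by
          unfold ltr
          rintro (⟨_, h⟩ | ⟨h, _⟩)
          · exact hnt h
          · omega
        rw [st_succ_not h1, RG_even_closed hi' (hj ▸ hp) hk hl]
        exact ih hc0 hk hk' hl hl'
      · have h1 : ltr c (tile n T) := Or.inr ⟨hp, hnt⟩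
        rw [st_succ_of h1, Rl_act_cut (st_nc hn c T) hb.1 (by omega) (by omega) (by omega) (by omega)
          (by omega), RG_odd_closed hc0 hi' (hj ▸ hp) hk hk' hl hl']
        have h2 := ih hc0 hk hk' hl hl'
        unfold RT at h2
        rw [h2, hj]
    · -- open
      have hst : st n (insert (tile n T) c0) T = st n c0 T := by
        refine st_congr hn T fun t ht => ?_
        rw [mem_insert]
        constructor
        · rintro (h | h)
          · rw [h] at ht
            exact absurd ht (tile_notMem hn T)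
          · exact h
        · exact Or.inr
      have hmem : tile n T ∈ insert (tile n T) c0 := mem_insert_self _ _
      rcases Nat.mod_two_eq_zero_or_one (tile n T).1 with hp | hp
      · have h1 : ltr (insert (tile n T) c0) (tile n T) := Or.inl ⟨hp, hmem⟩
        rw [st_succ_of h1, hst, Rl_act_merge (st_nc hn c0 T) hb.1 (by omega) (by omega) (by omega)
          (by omega) (by omega)]
        have h3 := RG_even_open (c := c0) hi' (hj ▸ hp) hk hl
        have e1 : insert (tile n T) c0 = insert (tt n (T / (2 * n)) (T % (2 * n))) c0 := rfl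
        rw [e1, h3, ← hj]
        have i1 := ih hc0 hk hk' hl hl'
        have i2 := ih hc0 hk hk' (by omega : ((tile n T).1 - 1) % 2 = 1) (by omega)
        have i3 := ih hc0 (by omega : ((tile n T).1 + 1) % 2 = 1) (by omega) hl hl'
        have i4 := ih hc0 hk hk' (by omega : ((tile n T).1 + 1) % 2 = 1) (by omega)
        have i5 := ih hc0 (by omega : ((tile n T).1 - 1) % 2 = 1) (by omega) hl hl'
        unfold RT at i1 i2 i3 i4 i5
        rw [i1, i2, i3, i4, i5]
      · have h1 : ¬ ltr (insert (tile n T) c0) (tile n T) := by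
          unfold ltr
          rintro (⟨h, _⟩ | ⟨_, h⟩)
          · omega
          · exact h hmem
        rw [st_succ_not h1, hst]
        have h3 := RG_odd_open hc0 hi' (hj ▸ hp) hk hk' hl hl'
        have e1 : insert (tile n T) c0 = insert (tt n (T / (2 * n)) (T % (2 * n))) c0 := rfl
        rw [e1, h3]
        exact ih hc0 hk hk' hl hl'

theorem ms_fst {n : ℕ} (hn : 1 ≤ n) (c : Finset (ℕ × ℕ)) (T0 t : ℕ) : ∀ σ a, ms n c T0 t = some (σ, a) →
    σ = st n c (T0 + t) ∧ Exp (2 * n + 2) σ a := by
  induction t with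
  | zero =>
    intro σ a h
    have h1 : some (st n c T0, 1) = some (σ, a) := h
    rw [Option.some.injEq, Prod.mk.injEq] at h1
    obtain ⟨h2, h3⟩ := h1
    rw [← h2, ← h3]
    exact ⟨rfl, exp_one (st_nc hn c T0) (by omega)⟩
  | succ t ih =>
    intro σ a h
    have hb := tile_fst hn (T0 + t)
    have h1 : (if ltr c (tile n (T0 + t)) then stp (tile n (T0 + t)).1 (ms n c T0 t) else ms n c T0 t) =
      some (σ, a) := h
    by_cases hl : ltr c (tile n (T0 + t))
    · rw [if_pos hl] at h1
      cases hS : ms n c T0 t with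
      | none =>
        rw [hS] at h1
        exact absurd h1 (by simp [stp])
      | some p =>
        obtain ⟨σ', a'⟩ := p
        obtain ⟨i1, i2⟩ := ih σ' a' hS
        rw [hS] at h1
        unfold stp at h1
        simp only at h1
        split_ifs at h1 with hd
        rw [Option.some.injEq, Prod.mk.injEq] at h1
        obtain ⟨h2, h3⟩ := h1
        have hnc : IsNC (2 * n + 2) σ' := by rw [i1]; exact st_nc hn c _
        refine ⟨?_, ?_⟩
        · rw [← h2, i1]
          exact (st_succ_of hl).symm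
        · rw [← h2, ← h3]
          exact exp_stp hnc hb.1 (by omega) i2 hd
    · rw [if_neg hl] at h1
      obtain ⟨i1, i2⟩ := ih σ a h1
      refine ⟨?_, i2⟩
      rw [i1]
      exact (st_succ_not hl).symm

theorem inv_ms {n : ℕ} (hn : 1 ≤ n) (m t : ℕ) : ∀ {c : Finset (ℕ × ℕ)}, c ⊆ PT n (2 * n * (2 * m) + t) →
    ∀ {k : ℕ}, k % 2 = 1 → k ≤ 2 * n + 1 → (MT n (2 * n * (2 * m) + t) c (1, 2 * m) k ↔
      ∃ σ a, ms n c (2 * n * (2 * m)) t = some (σ, a) ∧ Rl σ a k) := by
  induction t with
  | zero =>
    intro c hc k hk hk'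
    have h1 : MT n (2 * n * (2 * m) + 0) c (1, 2 * m) k ↔ RT n (2 * n * (2 * m) + 0) c 1 k := by
      unfold MT RT
      rw [add_zero, Nat.mul_div_cancel_left _ (by omega : 0 < 2 * n), Nat.mul_mod_right]
      exact MK_start hn (by omega) c k
    rw [h1, inv_st hn _ hc (by omega) (by omega) hk hk']
    constructor
    · intro h
      exact ⟨_, 1, rfl, h⟩
    · rintro ⟨σ, a, h2, h3⟩
      have h4 : some (st n c (2 * n * (2 * m)), 1) = some (σ, a) := h2
      rw [Option.some.injEq, Prod.mk.injEq] at h4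
      obtain ⟨h5, h6⟩ := h4
      rw [← h5, ← h6] at h3
      exact h3
  | succ t ih =>
    intro c hc k hk hk'
    obtain ⟨T0, hT0⟩ : ∃ T0, T0 = 2 * n * (2 * m) := ⟨_, rfl⟩
    rw [← hT0] at ih hc ⊢
    obtain ⟨T, hT⟩ : ∃ T, T = T0 + t := ⟨_, rfl⟩
    have hT1 : T0 + (t + 1) = T + 1 := by omega
    rw [hT1] at hc ⊢
    rw [← hT] at ih
    have hi' := mod_lt hn T
    have hb := tile_fst hn T
    have hj : (tile n T).1 = jj n (T / (2 * n)) (T % (2 * n)) := rfl
    have hh' : 2 * m ≤ T / (2 * n) := by
      rw [Nat.le_div_iff_mul_le (by omega), hT, hT0, mul_comm (2 * m)]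
      exact Nat.le_add_right _ _
    rw [MT_succ hn T c _ hk hk']
    have hms : ∀ c, ms n c T0 (t + 1) = if ltr c (tile n T) then stp (tile n T).1 (ms n c T0 t) else ms n c T0 t := by
      intro c
      rw [hT]
      rfl
    rcases split_c hn hc with hc0 | ⟨c0, hc0, rfl⟩
    · -- closed
      have hnt : tile n T ∉ c := fun h => tile_notMem hn T (hc0 h)
      rcases Nat.mod_two_eq_zero_or_one (tile n T).1 with hp | hp
      · have h1 : ¬ ltr c (tile n T) := by
          unfold ltr
          rintro (⟨_, h⟩ | ⟨h, _⟩)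
          · exact hnt h
          · omega
        rw [hms, if_neg h1, MK_even_closed hi' (hj ▸ hp) hk]
        exact ih hc0 hk hk'
      · have h1 : ltr c (tile n T) := Or.inr ⟨hp, hnt⟩
        have h2 := ih hc0 hk hk'
        unfold MT at h2
        rw [hms, if_pos h1, MK_odd_closed hc0 hi' (hj ▸ hp) hh', h2, ← hj]
        constructor
        · rintro ⟨h3, σ, a, h4, h5⟩
          obtain ⟨i1, i2⟩ := ms_fst hn c T0 t σ a h4
          have hnc : IsNC (2 * n + 2) σ := by rw [i1]; exact st_nc hn c _
          have hd : ¬((tile n T).1 = a ∧ σ a = a + 1) := by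
            rintro ⟨h6, h7⟩
            rw [mark_dead hnc i2 h7 (by omega)] at h5
            omega
          refine ⟨act (tile n T).1 σ, mk (tile n T).1 σ a, ?_, ?_⟩
          · rw [h4]
            unfold stp
            simp only
            rw [if_neg hd]
          · rw [mark_cut hnc hb.1 (by omega) hp i2 hd (by omega) hk]
            exact ⟨h5, h3⟩
        · rintro ⟨σ', a', h4, h5⟩
          cases hS : ms n c T0 t with
          | none =>
            rw [hS] at h4
            exact absurd h4 (by simp [stp])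
          | some p =>
            obtain ⟨σ, a⟩ := p
            obtain ⟨i1, i2⟩ := ms_fst hn c T0 t σ a hS
            have hnc : IsNC (2 * n + 2) σ := by rw [i1]; exact st_nc hn c _
            rw [hS] at h4
            unfold stp at h4
            simp only at h4
            split_ifs at h4 with hd
            rw [Option.some.injEq, Prod.mk.injEq] at h4
            obtain ⟨h6, h7⟩ := h4
            rw [← h6, ← h7, mark_cut hnc hb.1 (by omega) hp i2 hd (by omega) hk] at h5
            exact ⟨h5.2, σ, a, rfl, h5.1⟩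
    · -- open
      have hms0 : ms n (insert (tile n T) c0) T0 t = ms n c0 T0 t := by
        refine ms_congr hn T0 t fun t' ht => ?_
        rw [← hT] at ht
        rw [mem_insert]
        constructor
        · rintro (h | h)
          · rw [h] at ht
            exact absurd ht (tile_notMem hn T)
          · exact h
        · exact Or.inr
      have hmem : tile n T ∈ insert (tile n T) c0 := mem_insert_self _ _
      have e1 : insert (tile n T) c0 = insert (tt n (T / (2 * n)) (T % (2 * n))) c0 := rfl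
      rcases Nat.mod_two_eq_zero_or_one (tile n T).1 with hp | hp
      · have h1 : ltr (insert (tile n T) c0) (tile n T) := Or.inl ⟨hp, hmem⟩
        have hst : ∀ {σ a}, ms n c0 T0 t = some (σ, a) → σ = st n c0 T := by
          intro σ a h
          rw [hT]
          exact (ms_fst hn c0 T0 t σ a h).1
        have i0 := ih hc0 hk hk'
        have i1 := ih hc0 (by omega : ((tile n T).1 - 1) % 2 = 1) (by omega)
        have i2 := ih hc0 (by omega : ((tile n T).1 + 1) % 2 = 1) (by omega)
        have i3 := inv_st hn T hc0 (by omega : ((tile n T).1 + 1) % 2 = 1) (by omega) hk hk'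
        have i4 := inv_st hn T hc0 (by omega : ((tile n T).1 - 1) % 2 = 1) (by omega) hk hk'
        unfold MT at i0 i1 i2
        unfold RT at i3 i4
        rw [hms, if_pos h1, hms0, e1, MK_even_open hi' (hj ▸ hp) hk, ← hj, i0, i1, i2, i3, i4]
        constructor
        · intro h
          have h2 : ∃ σ a, ms n c0 T0 t = some (σ, a) := by
            rcases h with ⟨σ, a, h3, _⟩ | ⟨⟨σ, a, h3, _⟩, _⟩ | ⟨⟨σ, a, h3, _⟩, _⟩
            · exact ⟨σ, a, h3⟩
            · exact ⟨σ, a, h3⟩
            · exact ⟨σ, a, h3⟩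
          obtain ⟨σ, a, hS⟩ := h2
          obtain ⟨g1, g2⟩ := ms_fst hn c0 T0 t σ a hS
          have hnc : IsNC (2 * n + 2) σ := by rw [g1]; exact st_nc hn c0 _
          have hd : ¬((tile n T).1 = a ∧ σ a = a + 1) := by
            rintro ⟨h6, _⟩
            have := exp_odd hnc g2
            omega
          refine ⟨act (tile n T).1 σ, mk (tile n T).1 σ a, ?_, ?_⟩
          · rw [hS]
            unfold stp
            simp only
            rw [if_neg hd]
          · rw [mark_merge hnc hb.1 (by omega) hp g2 (by omega) hk]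
            have hσ := hst hS
            rw [hS] at h
            rcases h with ⟨σ', a', h3, h4⟩ | ⟨⟨σ', a', h3, h4⟩, h5⟩ | ⟨⟨σ', a', h3, h4⟩, h5⟩
            · rw [Option.some.injEq, Prod.mk.injEq] at h3
              rw [h3.1, h3.2]
              exact Or.inl h4
            · rw [Option.some.injEq, Prod.mk.injEq] at h3
              rw [← h3.1, ← h3.2] at h4
              rw [← hσ] at h5
              exact Or.inr (Or.inl ⟨h4, h5⟩)
            · rw [Option.some.injEq, Prod.mk.injEq] at h3
              rw [← h3.1, ← h3.2] at h4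
              rw [← hσ] at h5
              exact Or.inr (Or.inr ⟨h4, h5⟩)
        · rintro ⟨σ', a', h4, h5⟩
          cases hS : ms n c0 T0 t with
          | none =>
            rw [hS] at h4
            exact absurd h4 (by simp [stp])
          | some p =>
            obtain ⟨σ, a⟩ := p
            obtain ⟨g1, g2⟩ := ms_fst hn c0 T0 t σ a hS
            have hσ := hst hS
            have hnc : IsNC (2 * n + 2) σ := by rw [g1]; exact st_nc hn c0 _
            rw [hS] at h4
            unfold stp at h4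
            simp only at h4
            split_ifs at h4 with hd
            rw [Option.some.injEq, Prod.mk.injEq] at h4
            obtain ⟨h6, h7⟩ := h4
            rw [← h6, ← h7, mark_merge hnc hb.1 (by omega) hp g2 (by omega) hk] at h5
            rw [← hσ]
            rcases h5 with h5 | ⟨h5, h8⟩ | ⟨h5, h8⟩
            · exact Or.inl ⟨σ, a, rfl, h5⟩
            · exact Or.inr (Or.inl ⟨⟨σ, a, rfl, h5⟩, h8⟩)
            · exact Or.inr (Or.inr ⟨⟨σ, a, rfl, h5⟩, h8⟩)
      · have h1 : ¬ ltr (insert (tile n T) c0) (tile n T) := by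
          unfold ltr
          rintro (⟨h, _⟩ | ⟨_, h⟩)
          · omega
          · exact h hmem
        rw [hms, if_neg h1, hms0, e1, MK_odd_open hc0 hi' (hj ▸ hp) hh' hk hk']
        exact ih hc0 hk hk'

end FKH
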