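import Pool.Agent.Lib.MP_216314_pr.H.HMap
import Pool.Agent.Lib.MP_216314_pr.P.PProbA

/-!
# The crossing event in terms of tiles
-/

set_option autoImplicit false

noncomputable section

namespace FKH

open Finset FKI FKP FKG

/-- the site of a point of the square lattice -/
def chi (m : ℕ) (v : V) : ℕ × ℕ := ((1 - (v.1 + v.2)).toNat, (v.1 - v.2 + 2 * m).toNat)

theorem lo_odd (t : ℕ × ℕ) : ((lo t).1 + (lo t).2) % 2 = 1 := by
  unfold lo
  split_ifs with h
  · exact h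
  · simp only
    omega

theorem hi_odd (t : ℕ × ℕ) : ((hi t).1 + (hi t).2) % 2 = 1 := by
  unfold hi
  split_ifs with h
  · simp only
    omega
  · simp only
    omega

theorem chi_phi (m : ℕ) {u : ℕ × ℕ} (hu : (u.1 + u.2) % 2 = 1) : chi m (phi m u) = u := by
  obtain ⟨a, b⟩ := u
  unfold chi phi
  simp only at hu ⊢
  rw [Prod.mk.injEq]
  constructor
  · omega
  · omega

/-- connection in the square lattice -/
def Cs (n m : ℕ) (c : Finset (ℕ × ℕ)) (u v : V) : Prop :=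
  Conn (dst (2 * n) (2 * m)) (c.map (psiE m)) u v

theorem Cs_edge {n m : ℕ} {c : Finset (ℕ × ℕ)} (hc : c ⊆ tl n m) {t : ℕ × ℕ} (ht : t ∈ c) :
    Cs n m c (phi m (lo t)) (phi m (hi t)) := by
  have h1 : psi m t ∈ c.map (psiE m) := mem_map.2 ⟨t, ht, rfl⟩
  have h2 : psi m t ∈ dst (2 * n) (2 * m) := by
    rw [← map_tl]
    exact mem_map.2 ⟨t, hc ht, rfl⟩
  rcases psi_ends m t with h | h
  · exact pexit_edge h2 h1 (Or.inl h)
  · exact pexit_edge h2 h1 (Or.inr h)

theorem Cn_of_Cs {n m : ℕ} {c : Finset (ℕ × ℕ)} {u v : V} (h : Cs n m c u v) :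
    Cn n c (chi m u) (chi m v) := by
  obtain ⟨p⟩ := h
  induction p with
  | nil => exact Cn.refl _
  | @cons u v w hadj p ih =>
    refine Cn.trans ?_ ih
    obtain ⟨e, he, hends⟩ := pexit_adj hadj
    rw [mem_inter, mem_map] at he
    obtain ⟨⟨t, ht, rfl⟩, _⟩ := he
    have h1 := Cn.edge (n := n) ht
    have e1 := chi_phi m (lo_odd t)
    have e2 := chi_phi m (hi_odd t)
    have hp : psiE m t = psi m t := rfl
    rw [hp] at hends
    rcases psi_ends m t with ⟨h2, h3⟩ | ⟨h2, h3⟩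
    · rcases hends with ⟨h4, h5⟩ | ⟨h4, h5⟩
      · rw [← h4, ← h5, h2, h3, e1, e2]
        exact h1
      · rw [← h4, ← h5, h2, h3, e1, e2]
        exact h1.symm
    · rcases hends with ⟨h4, h5⟩ | ⟨h4, h5⟩
      · rw [← h4, ← h5, h2, h3, e1, e2]
        exact h1.symm
      · rw [← h4, ← h5, h2, h3, e1, e2]
        exact h1

theorem Cs_of_Cn {n m : ℕ} {c : Finset (ℕ × ℕ)} (hc : c ⊆ tl n m) {u v : ℕ × ℕ} (h : Cn n c u v) :
    Cs n m c (phi m u) (phi m v) ∨
      ((∃ w : V, w.1 + w.2 = -(2 * (n : ℤ)) ∧ Cs n m c (phi m u) w) ∧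
        ∃ w : V, w.1 + w.2 = -(2 * (n : ℤ)) ∧ Cs n m c (phi m v) w) := by
  induction h with
  | rel x y h =>
    rcases h with ⟨t, ht, h1, h2⟩ | ⟨h1, h2⟩
    · left
      rw [← h1, ← h2]
      exact Cs_edge hc ht
    · right
      refine ⟨⟨phi m x, ?_, Conn.refl _ _ _⟩, ⟨phi m y, ?_, Conn.refl _ _ _⟩⟩
      · unfold phi
        simp only
        omega
      · unfold phi
        simp only
        omega
  | refl x => exact Or.inl (Conn.refl _ _ _)
  | symm x y _ ih =>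
    rcases ih with h | ⟨h1, h2⟩
    · exact Or.inl (Conn.symm h)
    · exact Or.inr ⟨h2, h1⟩
  | trans x y z _ _ ih1 ih2 =>
    rcases ih1 with h | ⟨h1, ⟨w, h2, h3⟩⟩
    · rcases ih2 with h' | ⟨⟨w, h2, h3⟩, h4⟩
      · exact Or.inl (Conn.trans h h')
      · exact Or.inr ⟨⟨w, h2, Conn.trans h h3⟩, h4⟩
    · rcases ih2 with h' | ⟨_, h4⟩
      · exact Or.inr ⟨h1, ⟨w, h2, Conn.trans (Conn.symm h') h3⟩⟩
      · exact Or.inr ⟨h1, h4⟩

theorem SA_iff {n m : ℕ} {c : Finset (ℕ × ℕ)} (hc : c ⊆ tl n m) :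
    SA (2 * n) (2 * m) (c.map (psiE m)) ↔ Cn n c (1, 2 * m) (2 * n + 1, 0) := by
  have h0 : phi m (1, 2 * m) = (0, 0) := by
    unfold phi
    simp
  have h0' : chi m (0, 0) = (1, 2 * m) := by
    rw [← h0]
    exact chi_phi m (by simp only; omega)
  constructor
  · rintro ⟨v, hv, hcv⟩
    have h1 := Cn_of_Cs hcv
    rw [h0'] at h1
    refine h1.trans (Relation.EqvGen.rel _ _ (Or.inr ⟨⟨?_, ?_⟩, rfl, rfl⟩))
    · unfold chi
      push_cast at hv
      simp only
      omega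
    · unfold chi
      push_cast at hv
      simp only
      omega
  · intro h
    rcases Cs_of_Cn hc h with h1 | ⟨⟨w, h1, h2⟩, _⟩
    · rw [h0] at h1
      refine ⟨phi m (2 * n + 1, 0), ?_, h1⟩
      unfold phi
      simp only
      push_cast
      omega
    · rw [h0] at h2
      refine ⟨w, ?_, h2⟩
      push_cast
      exact h1

open Classical in
theorem sl_eq (n m : ℕ) : sl (2 * n) (2 * m) =
    (((tl n m).powerset.filter (fun c => Cn n c (1, 2 * m) (2 * n + 1, 0))).card : ℝ) /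
      2 ^ (tl n m).card := by
  unfold sl
  rw [← map_tl, pproba_eq, card_map]
  congr 2
  symm
  refine card_bij (fun c _ => c.map (psiE m)) ?_ ?_ ?_
  · intro c hc
    rw [mem_filter, mem_powerset] at hc ⊢
    refine ⟨map_subset_map.2 hc.1, (SA_iff hc.1).2 hc.2⟩
  · intro c _ c' _ h
    exact map_injective _ h
  · intro ω hω
    rw [mem_filter, mem_powerset] at hω
    obtain ⟨h1, h2⟩ := hω
    obtain ⟨c, hc, rfl⟩ := subset_map_iff.1 h1
    refine ⟨c, ?_, rfl⟩
    rw [mem_filter, mem_powerset]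
    exact ⟨hc, (SA_iff hc).1 h2⟩

end FKH
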