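import Pool.Agent.Lib.MP_216314_pr.H.HInv
import Pool.Agent.Lib.MP_216314_pr.S.SSpec

/-!
# The expectation over the tiles is the random word operator
-/

set_option autoImplicit false

noncomputable section

namespace FKH

open Finset QS

/-- one random letter -/
def hs (j : ℕ) (v : Vc) : Vc := fun D => (v D + ee j v D) / 2

theorem opH_cons (i : ℕ) (l : List ℕ) (v : Vc) : opH (i :: l) v = opH l (hs i v) := rfl

theorem opH_run (l : List ℕ) : ∀ (U : ℕ → Vc), (∀ (k : ℕ) (hk : k < l.length), U (k + 1) = hs l[k] (U k)) →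
    opH l (U 0) = U l.length := by
  induction l with
  | nil =>
    intro U _
    rfl
  | cons i l ih =>
    intro U h
    have h0 : U 1 = hs i (U 0) := h 0 (Nat.succ_pos _)
    rw [opH_cons, ← h0]
    have h1 := ih (fun k => U (k + 1)) (fun k hk => by
      have := h (k + 1) (Nat.succ_lt_succ hk)
      rw [List.getElem_cons_succ] at this
      exact this)
    exact h1

theorem per_length (n : ℕ) : (per n).length = 4 * n := by
  unfold per
  rw [List.length_append, List.length_map, List.length_map, List.length_range]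
  omega

theorem tile_fst_eq {n m k : ℕ} (hn : 1 ≤ n) (hk : k < 4 * n) :
    (tile n (4 * n * m + k)).1 = if k < 2 * n then k + 1 else 2 * n - (k - 2 * n) := by
  show jj n ((4 * n * m + k) / (2 * n)) ((4 * n * m + k) % (2 * n)) = _
  unfold jj
  by_cases h : k < 2 * n
  · have h1 : 4 * n * m + k = k + (2 * n) * (2 * m) := by ring
    rw [h1, Nat.add_mul_div_left _ _ (by omega), Nat.div_eq_of_lt h, zero_add,
      Nat.add_mul_mod_self_left, Nat.mod_eq_of_lt h, if_pos (by omega), if_pos h]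
  · obtain ⟨k', rfl⟩ : ∃ k', k = 2 * n + k' := ⟨k - 2 * n, by omega⟩
    have hk' : k' < 2 * n := by omega
    have h1 : 4 * n * m + (2 * n + k') = k' + (2 * n) * (2 * m + 1) := by ring
    rw [h1, Nat.add_mul_div_left _ _ (by omega), Nat.div_eq_of_lt hk', zero_add,
      Nat.add_mul_mod_self_left, Nat.mod_eq_of_lt hk', if_neg (by omega), if_neg h,
      Nat.add_sub_cancel_left]

theorem per_get {n k : ℕ} (hk : k < (per n).length) :
    (per n)[k] = if k < 2 * n then k + 1 else 2 * n - (k - 2 * n) := by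
  simp only [per, List.getElem_append, List.length_map, List.length_range, List.getElem_map,
    List.getElem_range]
  by_cases h : k < 2 * n
  · rw [dif_pos h, if_pos h]
  · rw [dif_neg h, if_neg h]

/-- a family of vectors which follows the tiles follows the periods -/
theorem AA_run {n : ℕ} (hn : 1 ≤ n) (U : ℕ → Vc) (m0 : ℕ)
    (h : ∀ t, U (t + 1) = hs (tile n (4 * n * m0 + t)).1 (U t)) (m : ℕ) :
    (AA n)^[m] (U 0) = U (4 * n * m) := by
  induction m with
  | zero => rfl
  | succ m ih =>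
    rw [Function.iterate_succ_apply', ih]
    have h1 := opH_run (per n) (fun k => U (4 * n * m + k)) (fun k hk => by
      have hk' : k < 4 * n := by
        rw [per_length] at hk
        exact hk
      have h2 := h (4 * n * m + k)
      have h3 : 4 * n * m0 + (4 * n * m + k) = 4 * n * (m0 + m) + k := by ring
      rw [h3, tile_fst_eq hn hk'] at h2
      rw [per_get hk]
      exact h2)
    rw [per_length] at h1
    have h2 : 4 * n * (m + 1) = 4 * n * m + 4 * n := by ring
    rw [h2, ← h1]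
    rfl

theorem ee_sum {ι : Type*} (s : Finset ι) (i : ℕ) (F : ι → Vc) (D : Finset ℕ) :
    ee i (fun D => ∑ c ∈ s, F c D) D = ∑ c ∈ s, ee i (F c) D := by
  unfold ee
  split_ifs
  · rw [sum_const_zero]
  · rw [mul_sum, ← sum_add_distrib]
  · rw [mul_sum, ← sum_add_distrib]

/-- mean of a family of vectors over the sets of open tiles -/
def mean (n T : ℕ) (F : Finset (ℕ × ℕ) → Vc) : Vc :=
  fun D => (∑ c ∈ (PT n T).powerset, F c D) / 2 ^ (PT n T).card

theorem mean_succ {n : ℕ} (hn : 1 ≤ n) (T : ℕ) (F G : Finset (ℕ × ℕ) → Vc)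
    (h : ∀ c, c ⊆ PT n T → (G c = F c ∧ G (insert (tile n T) c) = ee (tile n T).1 (F c)) ∨
      (G c = ee (tile n T).1 (F c) ∧ G (insert (tile n T) c) = F c)) :
    mean n (T + 1) G = hs (tile n T).1 (mean n T F) := by
  funext D
  have h1 : ∑ c ∈ (PT n (T + 1)).powerset, G c D = ∑ c ∈ (PT n T).powerset, (F c D + ee (tile n T).1 (F c) D) := by
    rw [PT_succ hn, sum_powerset_insert (tile_notMem hn T), ← sum_add_distrib]
    refine sum_congr rfl fun c hc => ?_
    rcases h c (mem_powerset.1 hc) with ⟨h2, h3⟩ | ⟨h2, h3⟩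
    · rw [h2, h3]
    · rw [h2, h3, add_comm]
  have h2 : (PT n (T + 1)).card = (PT n T).card + 1 := by
    rw [PT_succ hn, card_insert_of_notMem (tile_notMem hn T)]
  show (∑ c ∈ (PT n (T + 1)).powerset, G c D) / 2 ^ (PT n (T + 1)).card = (mean n T F D + ee (tile n T).1 (mean n T F) D) / 2
  have h3 : mean n T F = fun D => (1 / 2 ^ (PT n T).card) * (∑ c ∈ (PT n T).powerset, F c D) := by
    funext D
    unfold mean
    rw [one_div, inv_mul_eq_div]
  have h4 : ee (tile n T).1 (mean n T F) D =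
      (1 / 2 ^ (PT n T).card) * (∑ c ∈ (PT n T).powerset, ee (tile n T).1 (F c) D) := by
    rw [h3, ee_smul]
    show (1 / 2 ^ (PT n T).card) * ee (tile n T).1 (fun D => ∑ c ∈ (PT n T).powerset, F c D) D = _
    rw [ee_sum]
  have h5 : mean n T F D = (1 / 2 ^ (PT n T).card) * (∑ c ∈ (PT n T).powerset, F c D) := by
    rw [h3]
  rw [h1, h2, h4, h5, sum_add_distrib, pow_succ]
  field_simp

/-- mean state vector -/
def W (n T : ℕ) : Vc := mean n T (fun c => vec n (st n c T))

theorem st_insert {n : ℕ} (hn : 1 ≤ n) (T : ℕ) (c : Finset (ℕ × ℕ)) :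
    st n (insert (tile n T) c) T = st n c T := by
  refine st_congr hn T fun t ht => ?_
  rw [mem_insert]
  constructor
  · rintro (h | h)
    · rw [h] at ht
      exact absurd ht (tile_notMem hn T)
    · exact h
  · exact Or.inr

theorem ms_insert {n : ℕ} (hn : 1 ≤ n) (T0 t : ℕ) (c : Finset (ℕ × ℕ)) :
    ms n (insert (tile n (T0 + t)) c) T0 t = ms n c T0 t := by
  refine ms_congr hn T0 t fun t' ht => ?_
  rw [mem_insert]
  constructor
  · rintro (h | h)
    · rw [h] at ht
      exact absurd ht (tile_notMem hn _)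
    · exact h
  · exact Or.inr

/-- the letter of the tile -/
theorem ltr_cases {n : ℕ} (hn : 1 ≤ n) {T : ℕ} {c : Finset (ℕ × ℕ)} (hc : c ⊆ PT n T) :
    (¬ ltr c (tile n T) ∧ ltr (insert (tile n T) c) (tile n T)) ∨
    (ltr c (tile n T) ∧ ¬ ltr (insert (tile n T) c) (tile n T)) := by
  have hnt : tile n T ∉ c := fun h => tile_notMem hn T (hc h)
  have hmem : tile n T ∈ insert (tile n T) c := mem_insert_self _ _
  unfold ltr
  rcases Nat.mod_two_eq_zero_or_one (tile n T).1 with hp | hp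
  · left
    refine ⟨?_, Or.inl ⟨hp, hmem⟩⟩
    rintro (⟨_, h⟩ | ⟨h, _⟩)
    · exact hnt h
    · omega
  · right
    refine ⟨Or.inr ⟨hp, hnt⟩, ?_⟩
    rintro (⟨h, _⟩ | ⟨_, h⟩)
    · omega
    · exact h hmem

theorem W_succ {n : ℕ} (hn : 1 ≤ n) (T : ℕ) : W n (T + 1) = hs (tile n T).1 (W n T) := by
  refine mean_succ hn T _ _ fun c hc => ?_
  have hb := tile_fst hn T
  have h1 : ee (tile n T).1 (vec n (st n c T)) = vec n (act (tile n T).1 (st n c T)) :=
    vec_act (st_nc hn c T) hb.1 hb.2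
  have h2 := st_insert hn T c
  rcases ltr_cases hn hc with ⟨h3, h4⟩ | ⟨h3, h4⟩
  · left
    rw [st_succ_not h3, st_succ_of h4, h2, h1]
    exact ⟨rfl, rfl⟩
  · right
    rw [st_succ_of h3, st_succ_not h4, h2, h1]
    exact ⟨rfl, rfl⟩

theorem W_zero (n : ℕ) : W n 0 = v0 n := by
  funext D
  unfold W mean
  rw [PT_zero, powerset_empty, sum_singleton, card_empty, pow_zero, div_one]
  rfl

/-- mean marked vector -/
def X (n T0 t : ℕ) : Vc := mean n (T0 + t) (fun c => svec n (ms n c T0 t))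

theorem svec_stp {n : ℕ} (hn : 1 ≤ n) (c : Finset (ℕ × ℕ)) (T0 t j : ℕ) (h1 : 1 ≤ j) (h2 : j ≤ 2 * n) :
    ee j (svec n (ms n c T0 t)) = svec n (stp j (ms n c T0 t)) := by
  cases hS : ms n c T0 t with
  | none =>
    show ee j (fun _ => 0) = fun _ => 0
    funext D
    unfold ee
    split_ifs
    · rfl
    · rw [mul_zero, add_zero]
    · rw [mul_zero, add_zero]
  | some p =>
    obtain ⟨σ, a⟩ := p
    obtain ⟨g1, g2⟩ := ms_fst hn c T0 t σ a hS
    have hnc : IsNC (2 * n + 2) σ := by rw [g1]; exact st_nc hn c _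
    exact stp_vec hnc h1 h2 g2

theorem X_succ {n : ℕ} (hn : 1 ≤ n) (T0 t : ℕ) : X n T0 (t + 1) = hs (tile n (T0 + t)).1 (X n T0 t) := by
  refine mean_succ hn (T0 + t) _ _ fun c hc => ?_
  have hb := tile_fst hn (T0 + t)
  have h1 := svec_stp hn c T0 t (tile n (T0 + t)).1 hb.1 hb.2
  have h2 := ms_insert hn T0 t c
  have hms : ∀ c, ms n c T0 (t + 1) =
      if ltr c (tile n (T0 + t)) then stp (tile n (T0 + t)).1 (ms n c T0 t) else ms n c T0 t := fun _ => rfl
  rcases ltr_cases hn hc with ⟨h3, h4⟩ | ⟨h3, h4⟩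
  · left
    rw [hms, hms, if_neg h3, if_pos h4, h2, h1]
    exact ⟨rfl, rfl⟩
  · right
    rw [hms, hms, if_pos h3, if_neg h4, h2, h1]
    exact ⟨rfl, rfl⟩

theorem X_zero (n T0 : ℕ) : X n T0 0 = Ox 1 (W n T0) := by
  funext D
  show (∑ c ∈ (PT n T0).powerset, Ox 1 (vec n (st n c T0)) D) / 2 ^ (PT n T0).card =
    Ox 1 (mean n T0 (fun c => vec n (st n c T0))) D
  unfold Ox mean
  by_cases h : 1 ∈ D
  · simp only [if_pos h]
    rw [← mul_sum, mul_div_assoc]
  · simp only [if_neg h]

theorem pm_eq {n : ℕ} (hn : 1 ≤ n) (m : ℕ) :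
    pm n m = ip n (v0 n) (X n (4 * n * m) (4 * n * m)) := by
  have h1 : (AA n)^[m] (v0 n) = W n (4 * n * m) := by
    have := AA_run hn (fun T => W n T) 0 (fun t => by
      rw [Nat.mul_zero, zero_add]
      exact W_succ hn t) m
    have h3 : W n 0 = v0 n := W_zero n
    rw [← h3]
    exact this
  have h2 : (AA n)^[m] (X n (4 * n * m) 0) = X n (4 * n * m) (4 * n * m) :=
    AA_run hn (fun t => X n (4 * n * m) t) m (fun t => X_succ hn (4 * n * m) t) m
  unfold pm
  rw [h1, ← X_zero, h2]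

end FKH
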