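import Pool.Agent.Lib.MP_216314_pr.H.HMain

/-!
# MP_216314_pr: the one-arm exponents of a straight boundary (`1/3`) and of a right-angled corner (`2/3`) for critical bond percolation on the square lattice

`FKP.piH n`: probability that `(0,0)` is connected inside `[-n,n] × [0,n]` to the left, right or upper side of this rectangle.
`FKP.piQ n`: probability that the corner `(0,0)` of the square `[0,n]²` is connected inside the square to its right or upper side.
Both for bond percolation on the square lattice with parameter `1/2`.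
-/

set_option autoImplicit false

theorem Pool.Agent.Results.MP_216314_pr.BoundaryExponents.result :
    ∃ c C : ℝ, 0 < c ∧ 0 < C ∧ ∀ n : ℕ, 1 ≤ n →
      c * (n : ℝ) ^ (-(1 / 3) : ℝ) ≤ FKP.piH n ∧ FKP.piH n ≤ C * (n : ℝ) ^ (-(1 / 3) : ℝ) ∧
      c * (n : ℝ) ^ (-(2 / 3) : ℝ) ≤ FKP.piQ n ∧ FKP.piQ n ≤ C * (n : ℝ) ^ (-(2 / 3) : ℝ) :=
  FKH.exponents_main
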