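import Mathlib

/-!
# The diagonal strip in rotated coordinates: tiles, edges, connectivity with wired last column

Sites are the `(X, h)` with `X + h` odd, `1 ≤ X ≤ 2 n + 1`. The tile `(j, h)` carries the edge between the columns `j` and `j + 1` and
between the heights `h` and `h + 1`; `lo` and `hi` are its end points. `Cn n c u v`: `u` and `v` are connected by the edges of the open
tiles `c`, all sites of the column `2 n + 1` being wired.
-/

set_option autoImplicit false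

namespace FKH

open Finset

/-- the lower end point of the edge of the tile `(j, h)` -/
def lo (t : ℕ × ℕ) : ℕ × ℕ := if (t.1 + t.2) % 2 = 1 then (t.1, t.2) else (t.1 + 1, t.2)

/-- the upper end point of the edge of the tile `(j, h)` -/
def hi (t : ℕ × ℕ) : ℕ × ℕ := if (t.1 + t.2) % 2 = 1 then (t.1 + 1, t.2 + 1) else (t.1, t.2 + 1)

/-- one step: an open edge, or two sites of the wired column -/
def lk (n : ℕ) (c : Finset (ℕ × ℕ)) (u v : ℕ × ℕ) : Prop :=
  (∃ t ∈ c, lo t = u ∧ hi t = v) ∨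
    ((u.1 = 2 * n + 1 ∧ u.2 % 2 = 0) ∧ (v.1 = 2 * n + 1 ∧ v.2 % 2 = 0))

/-- connected -/
def Cn (n : ℕ) (c : Finset (ℕ × ℕ)) (u v : ℕ × ℕ) : Prop := Relation.EqvGen (lk n c) u v

theorem Cn.refl {n : ℕ} {c : Finset (ℕ × ℕ)} (u : ℕ × ℕ) : Cn n c u u := Relation.EqvGen.refl u

theorem Cn.symm {n : ℕ} {c : Finset (ℕ × ℕ)} {u v : ℕ × ℕ} (h : Cn n c u v) : Cn n c v u :=
  Relation.EqvGen.symm _ _ h

theorem Cn.trans {n : ℕ} {c : Finset (ℕ × ℕ)} {u v w : ℕ × ℕ} (h : Cn n c u v) (h' : Cn n c v w) :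
    Cn n c u w := Relation.EqvGen.trans _ _ _ h h'

theorem Cn.mono {n : ℕ} {c c' : Finset (ℕ × ℕ)} (hs : c ⊆ c') {u v : ℕ × ℕ} (h : Cn n c u v) :
    Cn n c' u v := by
  induction h with
  | rel x y h =>
    refine Relation.EqvGen.rel _ _ ?_
    rcases h with ⟨t, ht, h1⟩ | h
    · exact Or.inl ⟨t, hs ht, h1⟩
    · exact Or.inr h
  | refl x => exact Relation.EqvGen.refl _
  | symm x y _ ih => exact Relation.EqvGen.symm _ _ ih
  | trans x y z _ _ ih1 ih2 => exact Relation.EqvGen.trans _ _ _ ih1 ih2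

theorem Cn.edge {n : ℕ} {c : Finset (ℕ × ℕ)} {t : ℕ × ℕ} (ht : t ∈ c) : Cn n c (lo t) (hi t) :=
  Relation.EqvGen.rel _ _ (Or.inl ⟨t, ht, rfl, rfl⟩)

/-- adding one edge -/
theorem Cn_insert {n : ℕ} {c : Finset (ℕ × ℕ)} {t : ℕ × ℕ} {u v : ℕ × ℕ} :
    Cn n (insert t c) u v ↔ Cn n c u v ∨ (Cn n c u (lo t) ∧ Cn n c (hi t) v) ∨
      (Cn n c u (hi t) ∧ Cn n c (lo t) v) := by
  constructor
  · intro h
    induction h with
    | rel x y h =>
      rcases h with ⟨t', ht', h1, h2⟩ | h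
      · rw [mem_insert] at ht'
        rcases ht' with ht' | ht'
        · subst ht'
          rw [← h1, ← h2]
          exact Or.inr (Or.inl ⟨Cn.refl _, Cn.refl _⟩)
        · exact Or.inl (Relation.EqvGen.rel _ _ (Or.inl ⟨t', ht', h1, h2⟩))
      · exact Or.inl (Relation.EqvGen.rel _ _ (Or.inr h))
    | refl x => exact Or.inl (Cn.refl _)
    | symm x y _ ih =>
      rcases ih with h | ⟨h1, h2⟩ | ⟨h1, h2⟩
      · exact Or.inl h.symm
      · exact Or.inr (Or.inr ⟨h2.symm, h1.symm⟩)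
      · exact Or.inr (Or.inl ⟨h2.symm, h1.symm⟩)
    | trans x y z _ _ ih1 ih2 =>
      rcases ih1 with h | ⟨h1, h2⟩ | ⟨h1, h2⟩
      · rcases ih2 with h' | ⟨h1', h2'⟩ | ⟨h1', h2'⟩
        · exact Or.inl (h.trans h')
        · exact Or.inr (Or.inl ⟨h.trans h1', h2'⟩)
        · exact Or.inr (Or.inr ⟨h.trans h1', h2'⟩)
      · rcases ih2 with h' | ⟨h1', h2'⟩ | ⟨h1', h2'⟩
        · exact Or.inr (Or.inl ⟨h1, h2.trans h'⟩)
        · exact Or.inr (Or.inl ⟨h1, h2'⟩)
        · exact Or.inl (h1.trans h2')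
      · rcases ih2 with h' | ⟨h1', h2'⟩ | ⟨h1', h2'⟩
        · exact Or.inr (Or.inr ⟨h1, h2.trans h'⟩)
        · exact Or.inl (h1.trans h2')
        · exact Or.inr (Or.inr ⟨h1, h2'⟩)
  · have hs : c ⊆ insert t c := subset_insert _ _
    have he : Cn n (insert t c) (lo t) (hi t) := Cn.edge (mem_insert_self _ _)
    rintro (h | ⟨h1, h2⟩ | ⟨h1, h2⟩)
    · exact h.mono hs
    · exact ((h1.mono hs).trans he).trans (h2.mono hs)
    · exact ((h1.mono hs).trans he.symm).trans (h2.mono hs)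

/-- an isolated site is connected only to itself -/
theorem Cn.eq_of_isolated {n : ℕ} {c : Finset (ℕ × ℕ)} {q : ℕ × ℕ} (hq : q.1 ≠ 2 * n + 1)
    (hc : ∀ t ∈ c, lo t ≠ q ∧ hi t ≠ q) {u v : ℕ × ℕ} (h : Cn n c u v) : u = q ↔ v = q := by
  induction h with
  | rel x y h =>
    rcases h with ⟨t, ht, h1, h2⟩ | ⟨h1, h2⟩
    · have := hc t ht
      rw [h1, h2] at this
      exact ⟨fun h => absurd h this.1, fun h => absurd h this.2⟩
    · constructor
      · intro h
        rw [h] at h1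
        exact absurd h1.1 hq
      · intro h
        rw [h] at h2
        exact absurd h2.1 hq
  | refl x => exact Iff.rfl
  | symm x y _ ih => exact ih.symm
  | trans x y z _ _ ih1 ih2 => exact ih1.trans ih2

end FKH
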