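import Pool.Agent.Lib.MP_216314_pr.G.GDef
import Pool.Agent.Lib.MP_216314_pr.P.PProbB

/-!
# From the exact law of the strips of even width to the power law
-/

set_option autoImplicit false

noncomputable section

namespace FKH

open Finset FKI FKP FKG Filter Topology

/-- the exact value -/
def pr (n : ℕ) : ℝ := ∏ j ∈ range n, ((6 * (j : ℝ) + 4) / (6 * j + 5)) ^ 2

theorem pr_pos (n : ℕ) : 0 < pr n := by
  unfold pr
  exact prod_pos fun j _ => by positivity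

theorem hlast_up {t : ℝ} (ht : 0 ≤ t) : ((6 * t + 4) / (6 * t + 5)) ^ 6 ≤ (12 * t + 5) / (12 * t + 17) := by
  rw [div_pow, div_le_div_iff₀ (by positivity) (by positivity)]
  have h : 0 ≤ (12 * t + 5) * (6 * t + 5) ^ 6 - (6 * t + 4) ^ 6 * (12 * t + 17) := by
    ring_nf
    positivity
  linarith

theorem hlast_lo {t : ℝ} (ht : 0 ≤ t) : (6 * t + 1) / (6 * t + 7) ≤ ((6 * t + 4) / (6 * t + 5)) ^ 6 := by
  rw [div_pow, div_le_div_iff₀ (by positivity) (by positivity)]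
  have h : 0 ≤ (6 * t + 4) ^ 6 * (6 * t + 7) - (6 * t + 1) * (6 * t + 5) ^ 6 := by
    ring_nf
    positivity
  linarith

theorem pr_cube_le (n : ℕ) : pr n ^ 3 ≤ 5 / (12 * (n : ℝ) + 5) := by
  induction n with
  | zero => simp [pr]
  | succ n ih =>
    have h1 : pr (n + 1) = pr n * ((6 * (n : ℝ) + 4) / (6 * n + 5)) ^ 2 := by
      unfold pr
      rw [prod_range_succ]
    have h2 := hlast_up (Nat.cast_nonneg (α := ℝ) n)
    have h3 : (((6 * (n : ℝ) + 4) / (6 * n + 5)) ^ 2) ^ 3 = ((6 * (n : ℝ) + 4) / (6 * n + 5)) ^ 6 := by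
      ring
    rw [h1, mul_pow, h3]
    have h4 : 5 / (12 * (n : ℝ) + 5) * ((12 * (n : ℝ) + 5) / (12 * n + 17)) =
        5 / (12 * ((n + 1 : ℕ) : ℝ) + 5) := by
      push_cast
      have h5 : (12 * (n : ℝ) + 5) ≠ 0 := by positivity
      field_simp
      ring
    rw [← h4]
    exact mul_le_mul ih h2 (by positivity) (by positivity)

theorem pr_cube_ge (n : ℕ) : 1 / (6 * (n : ℝ) + 1) ≤ pr n ^ 3 := by
  induction n with
  | zero => simp [pr]
  | succ n ih =>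
    have h1 : pr (n + 1) = pr n * ((6 * (n : ℝ) + 4) / (6 * n + 5)) ^ 2 := by
      unfold pr
      rw [prod_range_succ]
    have h2 := hlast_lo (Nat.cast_nonneg (α := ℝ) n)
    have h3 : (((6 * (n : ℝ) + 4) / (6 * n + 5)) ^ 2) ^ 3 = ((6 * (n : ℝ) + 4) / (6 * n + 5)) ^ 6 := by
      ring
    rw [h1, mul_pow, h3]
    have h4 : 1 / (6 * (n : ℝ) + 1) * ((6 * (n : ℝ) + 1) / (6 * n + 7)) =
        1 / (6 * ((n + 1 : ℕ) : ℝ) + 1) := by
      push_cast
      have h5 : (6 * (n : ℝ) + 1) ≠ 0 := by positivity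
      field_simp
      ring
    rw [← h4]
    exact mul_le_mul ih h2 (by positivity) (pow_nonneg (pr_pos n).le 3)

theorem pr_le {n : ℕ} (hn : 1 ≤ n) : pr n ≤ (n : ℝ) ^ (-(1 / 3) : ℝ) := by
  have hn0 : (0 : ℝ) < n := by exact_mod_cast hn
  have h1 := pr_cube_le n
  have h2 : 5 / (12 * (n : ℝ) + 5) ≤ ((n : ℝ) ^ (-(1 / 3) : ℝ)) ^ 3 := by
    rw [← Real.rpow_natCast, ← Real.rpow_mul hn0.le]
    norm_num
    rw [Real.rpow_neg_one, div_le_iff₀ (by positivity), inv_mul_eq_div, le_div_iff₀ hn0]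
    linarith
  exact le_of_pow_le_pow_left₀ (by norm_num) (by positivity) (h1.trans h2)

theorem pr_ge {n : ℕ} (hn : 1 ≤ n) : (1 / 2) * (n : ℝ) ^ (-(1 / 3) : ℝ) ≤ pr n := by
  have hn0 : (0 : ℝ) < n := by exact_mod_cast hn
  have hn1 : (1 : ℝ) ≤ n := by exact_mod_cast hn
  have h1 := pr_cube_ge n
  have h2 : ((1 / 2) * (n : ℝ) ^ (-(1 / 3) : ℝ)) ^ 3 ≤ 1 / (6 * (n : ℝ) + 1) := by
    have h3 : ((n : ℝ) ^ (-(1 / 3) : ℝ)) ^ 3 = (n : ℝ)⁻¹ := by
      rw [← Real.rpow_natCast, ← Real.rpow_mul hn0.le]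
      norm_num
      rw [Real.rpow_neg_one]
    rw [mul_pow, h3, le_div_iff₀ (by positivity)]
    have h4 : (n : ℝ)⁻¹ * n = 1 := inv_mul_cancel₀ hn0.ne'
    have h5 : (0 : ℝ) < (n : ℝ)⁻¹ := by positivity
    have h6 : (n : ℝ)⁻¹ ≤ 1 := inv_le_one_of_one_le₀ hn1
    nlinarith
  exact le_of_pow_le_pow_left₀ (by norm_num) (pr_pos n).le (h2.trans h1)

theorem dst_mono {L K K' : ℕ} (h : K ≤ K') : dst L K ⊆ dst L K' := by
  intro e he
  rw [mem_dst] at he ⊢
  obtain ⟨h1, h2, h3, h4⟩ := he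
  have h5 : (K : ℤ) ≤ K' := by exact_mod_cast h
  exact ⟨h1, h2, h3.trans h5, h4.trans h5⟩

theorem sl_mono {L K K' : ℕ} (h : K ≤ K') : sl L K ≤ sl L K' := by
  unfold sl
  refine (Pr_super (dst_mono h) (inc_SA L K)).trans (Pr_mono fun ω _ hω => ?_)
  obtain ⟨v, hv, hc⟩ := hω
  exact ⟨v, hv, hc.mono (dst_mono h) (Finset.Subset.refl _)⟩

/-- the power law from the exact law -/
theorem evenLaw_of_lim (h : ∀ n : ℕ, 1 ≤ n → Tendsto (fun m : ℕ => sl (2 * n) (2 * m)) atTop (𝓝 (pr n))) :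
    EvenLaw := by
  refine ⟨1 / 4, 1, by norm_num, by norm_num, fun n K hn => ?_, fun n hn => ?_⟩
  · have hmono : Monotone (fun m : ℕ => sl (2 * n) (2 * m)) :=
      fun a b hab => sl_mono (Nat.mul_le_mul_left 2 hab)
    have h1 : sl (2 * n) K ≤ pr n :=
      (sl_mono (by omega : K ≤ 2 * K)).trans (hmono.ge_of_tendsto (h n hn) K)
    rw [one_mul]
    exact h1.trans (pr_le hn)
  · have h1 : (1 / 2) * pr n < pr n := by
      have := pr_pos n
      linarith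
    obtain ⟨m, hm⟩ := ((h n hn).eventually (lt_mem_nhds h1)).exists
    refine ⟨2 * m, ?_⟩
    have h2 := pr_ge hn
    linarith

end FKH
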