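import Pool.Agent.Lib.MP_216314_pr.H.HSum
import Pool.Agent.Lib.MP_216314_pr.H.HEvt
import Pool.Agent.Lib.MP_216314_pr.H.HLast

/-!
# The crossing probability of the diagonal strip is a matrix element of the random word operator
-/

set_option autoImplicit false

noncomputable section

namespace FKH

open Finset QS FKG Filter Topology

theorem PT_tl {n : ℕ} (hn : 1 ≤ n) (m : ℕ) : PT n (2 * n * (2 * m) + 4 * n * m) = tl n m := by
  have h1 : 2 * n * (2 * m) + 4 * n * m = (2 * n) * (4 * m) := by ring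
  unfold PT
  rw [h1, Nat.mul_div_cancel_left _ (by omega), Nat.mul_mod_right]
  ext t
  rw [mem_PS, mem_tl]
  unfold dn
  rw [if_pos (by omega)]
  constructor
  · rintro ⟨h2, h3 | ⟨_, h3⟩⟩
    · exact ⟨h2, h3⟩
    · omega
  · rintro ⟨h2, h3⟩
    exact ⟨h2, Or.inl h3⟩

open Classical in
/-- the pairing sees the event -/
theorem ip_event {n : ℕ} (hn : 1 ≤ n) (m : ℕ) {c : Finset (ℕ × ℕ)} (hc : c ⊆ tl n m) :
    ip n (v0 n) (svec n (ms n c (2 * n * (2 * m)) (4 * n * m))) =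
      if Cn n c (1, 2 * m) (2 * n + 1, 0) then 1 else 0 := by
  rw [← PT_tl hn] at hc
  have h1 := inv_ms hn m (4 * n * m) hc (k := 2 * n + 1) (by omega) le_rfl
  unfold MT at h1
  rw [MK_end] at h1
  cases hS : ms n c (2 * n * (2 * m)) (4 * n * m) with
  | none =>
    rw [if_neg]
    · show ∑ D ∈ sec n, v0 n D * 0 = 0
      simp only [mul_zero, sum_const_zero]
    · rw [h1, hS]
      rintro ⟨σ, a, h, _⟩
      exact absurd h (by simp)
  | some p =>
    obtain ⟨σ, a⟩ := p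
    obtain ⟨g1, g2⟩ := ms_fst hn c _ _ σ a hS
    have hnc : IsNC (2 * n + 2) σ := by rw [g1]; exact st_nc hn c _
    rw [ip_mark hnc g2]
    have h2 : Cn n c (1, 2 * m) (2 * n + 1, 0) ↔ σ a = 2 * n + 2 := by
      rw [h1, hS]
      have h3 := mark_end hnc g2
      constructor
      · rintro ⟨σ', a', h4, h5⟩
        rw [Option.some.injEq, Prod.mk.injEq] at h4
        rw [← h4.1, ← h4.2] at h5
        exact h3.1 h5
      · intro h4
        exact ⟨σ, a, rfl, h3.2 h4⟩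
    by_cases h3 : σ a = 2 * n + 2
    · rw [if_pos h3, if_pos (h2.2 h3)]
    · rw [if_neg h3, if_neg (fun h => h3 (h2.1 h))]

theorem sl_pm {n : ℕ} (hn : 1 ≤ n) (m : ℕ) : ((sl (2 * n) (2 * m) : ℝ) : ℂ) = pm n m := by
  classical
  have hT : 2 * n * (2 * m) = 4 * n * m := by ring
  have h1 : ip n (v0 n) (X n (4 * n * m) (4 * n * m)) =
      (∑ c ∈ (tl n m).powerset, ip n (v0 n) (svec n (ms n c (2 * n * (2 * m)) (4 * n * m)))) /
        2 ^ (tl n m).card := by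
    have h2 : PT n (4 * n * m + 4 * n * m) = tl n m := by
      rw [← PT_tl hn, hT]
    unfold X mean ip
    rw [h2, hT, sum_comm, sum_div]
    refine sum_congr rfl fun D _ => ?_
    rw [← mul_sum, mul_div_assoc]
  rw [pm_eq hn, h1, sl_eq]
  have h3 : ∑ c ∈ (tl n m).powerset, ip n (v0 n) (svec n (ms n c (2 * n * (2 * m)) (4 * n * m))) =
      ∑ c ∈ (tl n m).powerset, if Cn n c (1, 2 * m) (2 * n + 1, 0) then (1 : ℂ) else 0 :=
    sum_congr rfl fun c hc => ip_event hn m (mem_powerset.1 hc)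
  rw [h3, sum_boole]
  push_cast
  rfl

/-- the exact law from an eigenvector -/
theorem sl_tendsto {n : ℕ} (hn : 1 ≤ n) (Ψ : Vc) (h : ∀ D ∈ sec n, AA n Ψ D = Ψ D) (h0 : ip n Ψ Ψ ≠ 0)
    {r : ℝ} (hr : ip n Ψ (Ox 1 Ψ) = (r : ℂ) * ip n Ψ Ψ) :
    Tendsto (fun m : ℕ => sl (2 * n) (2 * m)) atTop (𝓝 r) := by
  have h1 := spec n Ψ h h0
  rw [hr, mul_div_cancel_right₀ _ h0] at h1
  have h2 : Tendsto (fun m : ℕ => ((sl (2 * n) (2 * m) : ℝ) : ℂ)) atTop (𝓝 (r : ℂ)) := by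
    refine h1.congr fun m => ?_
    exact (sl_pm hn m).symm
  have h3 := (Complex.continuous_re.tendsto _).comp h2
  exact h3

/-- the power law of the strips from the eigenvectors -/
theorem evenLaw_of_eigen (h : ∀ n : ℕ, 1 ≤ n → ∃ Ψ : Vc, (∀ D ∈ sec n, AA n Ψ D = Ψ D) ∧ ip n Ψ Ψ ≠ 0 ∧
    ip n Ψ (Ox 1 Ψ) = (pr n : ℂ) * ip n Ψ Ψ) : EvenLaw := by
  refine evenLaw_of_lim fun n hn => ?_
  obtain ⟨Ψ, h1, h2, h3⟩ := h n hn
  exact sl_tendsto hn Ψ h1 h2 h3

end FKH
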