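import Pool.Agent.Lib.MP_216314_pr.H.HFin
import Pool.Agent.Lib.MP_216314_pr.G.GFin
import Pool.Agent.Lib.MP_216314_pr.X.XBr

/-!
# The exact law of the diagonal strips and the exponents of the half plane and of the quadrant
-/

set_option autoImplicit false

noncomputable section

namespace FKH

open FKG Filter Topology

theorem rho_eq_pr (n : ℕ) : PX.rho n = pr n := rfl

/-- the exact one-arm law: `P(corner is joined to the other side of the strip of width 2n)` -/
theorem strip_exact {n : ℕ} (hn : 1 ≤ n) :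
    Tendsto (fun m : ℕ => sl (2 * n) (2 * m)) atTop (𝓝 (pr n)) := by
  refine sl_tendsto hn (PX.Psi n) (fun D _ => congrFun (PX.AA_Psi n) D) (PX.ip_Psi_ne n) ?_
  have h := PX.ip_quot n
  rw [div_eq_iff (PX.ip_Psi_ne n)] at h
  rw [h, rho_eq_pr]

theorem even_law : EvenLaw := evenLaw_of_lim fun _ hn => strip_exact hn

/-- the critical exponents `1/3` of the half plane and `2/3` of the quadrant -/
theorem exponents_main : ∃ c C : ℝ, 0 < c ∧ 0 < C ∧ ∀ n : ℕ, 1 ≤ n →
    c * (n : ℝ) ^ (-(1 / 3) : ℝ) ≤ FKP.piH n ∧ FKP.piH n ≤ C * (n : ℝ) ^ (-(1 / 3) : ℝ) ∧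
    c * (n : ℝ) ^ (-(2 / 3) : ℝ) ≤ FKP.piQ n ∧ FKP.piQ n ≤ C * (n : ℝ) ^ (-(2 / 3) : ℝ) :=
  exponents even_law

end FKH
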