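import Pool.Agent.Lib.MP_216314_pr.H.HDef
import Pool.Agent.Lib.MP_216314_pr.G.GDef
import Pool.Agent.Lib.MP_216314_pr.P.PExit

/-!
# The tiles are the edges of the diagonal strip
-/

set_option autoImplicit false

noncomputable section

namespace FKH

open Finset FKI FKP FKG

/-- the tiles of the strip -/
def tl (n m : ℕ) : Finset (ℕ × ℕ) := Icc 1 (2 * n) ×ˢ range (4 * m)

theorem mem_tl {n m : ℕ} {t : ℕ × ℕ} : t ∈ tl n m ↔ (1 ≤ t.1 ∧ t.1 ≤ 2 * n) ∧ t.2 < 4 * m := by
  unfold tl
  rw [mem_product, mem_Icc, mem_range]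

/-- the point of the square lattice of a site -/
def phi (m : ℕ) (u : ℕ × ℕ) : V :=
  ((1 - (u.1 : ℤ) + u.2 - 2 * m) / 2, (1 - (u.1 : ℤ) - u.2 + 2 * m) / 2)

/-- the edge of the square lattice of a tile -/
def psi (m : ℕ) (t : ℕ × ℕ) : Edge :=
  if (t.1 + t.2) % 2 = 1 then
    ((1 - (t.1 : ℤ) + t.2 - 2 * m) / 2, (1 - (t.1 : ℤ) - t.2 + 2 * m) / 2 - 1, true)
  else (((t.2 : ℤ) - t.1 - 2 * m) / 2, (2 * (m : ℤ) - t.1 - t.2) / 2, false)

theorem psi_inj (m : ℕ) : Function.Injective (psi m) := by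
  rintro ⟨a, b⟩ ⟨a', b'⟩ h
  unfold psi at h
  simp only at h
  split_ifs at h with h1 h2 h2
  · simp only [Prod.mk.injEq, and_true] at h
    rw [Prod.mk.injEq]
    omega
  · simp only [Prod.mk.injEq, Bool.true_eq_false, and_false] at h
  · simp only [Prod.mk.injEq, Bool.false_eq_true, and_false] at h
  · simp only [Prod.mk.injEq, and_true] at h
    rw [Prod.mk.injEq]
    omega

/-- the map `psi` as an embedding -/
def psiE (m : ℕ) : (ℕ × ℕ) ↪ Edge := ⟨psi m, psi_inj m⟩

/-- end points -/
theorem psi_ends (m : ℕ) (t : ℕ × ℕ) :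
    (ea (psi m t) = phi m (lo t) ∧ eb (psi m t) = phi m (hi t)) ∨
    (ea (psi m t) = phi m (hi t) ∧ eb (psi m t) = phi m (lo t)) := by
  obtain ⟨a, b⟩ := t
  unfold psi phi lo hi
  by_cases h : (a + b) % 2 = 1
  · right
    rw [if_pos h, if_pos h, if_pos h]
    simp only [ea, eb, if_true, Prod.mk.injEq]
    push_cast
    exact ⟨⟨by omega, by omega⟩, trivial, by omega⟩
  · left
    rw [if_neg h, if_neg h, if_neg h]
    simp only [ea, eb, Bool.false_eq_true, if_false, Prod.mk.injEq]
    push_cast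
    refine ⟨⟨?_, ?_⟩, ?_, ?_⟩
    · omega
    · omega
    · omega
    · omega

theorem map_tl (n m : ℕ) : (tl n m).map (psiE m) = dst (2 * n) (2 * m) := by
  ext e
  rw [mem_map, mem_dst, abs_le, abs_le]
  constructor
  · rintro ⟨t, ht, rfl⟩
    rw [mem_tl] at ht
    obtain ⟨a, b⟩ := t
    show _ ≤ (ea (psi m (a, b))).1 + (ea (psi m (a, b))).2 ∧ _
    simp only at ht
    simp only [psiE, Function.Embedding.coeFn_mk]
    unfold psi
    by_cases h : (a + b) % 2 = 1
    · rw [if_pos h]
      simp only [ea, eb, if_true]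
      push_cast
      omega
    · rw [if_neg h]
      simp only [ea, eb, Bool.false_eq_true, if_false]
      push_cast
      omega
  · obtain ⟨x, y, t⟩ := e
    cases t
    · simp only [ea, eb, Bool.false_eq_true, if_false]
      push_cast
      rintro ⟨h1, h2, ⟨h3, h4⟩, ⟨h5, h6⟩⟩
      refine ⟨((-(x + y)).toNat, (x - y + 2 * m).toNat), ?_, ?_⟩
      · rw [mem_tl]
        simp only
        omega
      · show psi m _ = _
        unfold psi
        simp only
        rw [if_neg (by omega)]
        simp only [Prod.mk.injEq, and_true]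
        omega
    · simp only [ea, eb, if_true]
      push_cast
      rintro ⟨h1, h2, ⟨h3, h4⟩, ⟨h5, h6⟩⟩
      refine ⟨((-(x + y)).toNat, (x - y + 2 * m - 1).toNat), ?_, ?_⟩
      · rw [mem_tl]
        simp only
        omega
      · show psi m _ = _
        unfold psi
        simp only
        rw [if_pos (by omega)]
        simp only [Prod.mk.injEq, and_true]
        omega

end FKH
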