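import Pool.Agent.Lib.MP_216314_pr.H.HDef

/-!
# The process: tiles in time order, current sites of the odd regions

In the slab `h` (between the heights `h` and `h + 1`) the tiles are processed from left to right if `h` is even, from right to left if `h` is
odd. `dn n h i k`: the tile `(k, h)` is among the first `i` tiles of the slab. `PS n h i`: the tiles processed before.
`cu n h i k`: current site of the odd region `k`; the region `2 n + 1` is the wired column.
-/

set_option autoImplicit false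

namespace FKH

open Finset

/-- the tile of column `k` is done after `i` tiles of the slab `h` -/
def dn (n h i k : ℕ) : Prop := if h % 2 = 0 then k ≤ i else 2 * n < k + i

instance (n h i k : ℕ) : Decidable (dn n h i k) := by
  unfold dn
  infer_instance

/-- the column of tile number `i` of the slab `h` -/
def jj (n h i : ℕ) : ℕ := if h % 2 = 0 then i + 1 else 2 * n - i

/-- number of tiles of column `k` which are done -/
def hh (n h i k : ℕ) : ℕ := if dn n h i k then h + 1 else h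

/-- current site of the odd region `k` -/
def cu (n h i k : ℕ) : ℕ × ℕ :=
  if k = 2 * n + 1 then (2 * n + 1, 0) else if hh n h i k % 2 = 0 then (k, hh n h i k) else (k + 1, hh n h i k)

/-- the processed tiles -/
def PS (n h i : ℕ) : Finset (ℕ × ℕ) :=
  (Icc 1 (2 * n) ×ˢ range (h + 1)).filter (fun t => t.2 < h ∨ dn n h i t.1)

theorem mem_PS {n h i : ℕ} {t : ℕ × ℕ} : t ∈ PS n h i ↔ (1 ≤ t.1 ∧ t.1 ≤ 2 * n) ∧
    (t.2 < h ∨ (t.2 = h ∧ dn n h i t.1)) := by
  unfold PS
  rw [mem_filter, mem_product, mem_Icc, mem_range]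
  constructor
  · rintro ⟨⟨h1, h2⟩, h3 | h3⟩
    · exact ⟨h1, Or.inl h3⟩
    · by_cases h4 : t.2 < h
      · exact ⟨h1, Or.inl h4⟩
      · exact ⟨h1, Or.inr ⟨by omega, h3⟩⟩
  · rintro ⟨h1, h3 | ⟨h3, h4⟩⟩
    · exact ⟨⟨h1, by omega⟩, Or.inl h3⟩
    · exact ⟨⟨h1, by omega⟩, Or.inr h4⟩

/-- the relation between the odd regions -/
def RG (n h i : ℕ) (c : Finset (ℕ × ℕ)) (k l : ℕ) : Prop := Cn n c (cu n h i k) (cu n h i l)

/-- the relation between the site `q` and the odd regions -/
def MK (n h i : ℕ) (c : Finset (ℕ × ℕ)) (q : ℕ × ℕ) (k : ℕ) : Prop := Cn n c q (cu n h i k)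

theorem jj_bd {n h i : ℕ} (hi : i < 2 * n) : 1 ≤ jj n h i ∧ jj n h i ≤ 2 * n := by
  unfold jj
  split_ifs
  · omega
  · omega

theorem dn_succ {n h i k : ℕ} (hi : i < 2 * n) : dn n h (i + 1) k ↔ dn n h i k ∨ k = jj n h i := by
  unfold dn jj
  split_ifs
  · omega
  · omega

theorem dn_jj {n h i : ℕ} (hi : i < 2 * n) : ¬ dn n h i (jj n h i) := by
  unfold dn jj
  split_ifs
  · omega
  · omega

theorem PS_succ {n h i : ℕ} (hi : i < 2 * n) : PS n h (i + 1) = insert (jj n h i, h) (PS n h i) := by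
  ext t
  rw [mem_insert, mem_PS, mem_PS, dn_succ hi]
  have h1 := jj_bd (h := h) hi
  constructor
  · rintro ⟨h2, h3 | ⟨h3, h4 | h4⟩⟩
    · exact Or.inr ⟨h2, Or.inl h3⟩
    · exact Or.inr ⟨h2, Or.inr ⟨h3, h4⟩⟩
    · exact Or.inl (Prod.ext h4 h3)
  · rintro (h2 | ⟨h2, h3 | ⟨h3, h4⟩⟩)
    · rw [h2]
      exact ⟨h1, Or.inr ⟨rfl, Or.inr rfl⟩⟩
    · exact ⟨h2, Or.inl h3⟩
    · exact ⟨h2, Or.inr ⟨h3, Or.inl h4⟩⟩

theorem not_mem_PS {n h i : ℕ} (hi : i < 2 * n) : (jj n h i, h) ∉ PS n h i := by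
  rw [mem_PS]
  rintro ⟨_, h2 | ⟨_, h2⟩⟩
  · exact absurd h2 (lt_irrefl _)
  · exact dn_jj hi h2

theorem PS_next (n h : ℕ) : PS n h (2 * n) = PS n (h + 1) 0 := by
  ext t
  rw [mem_PS, mem_PS]
  unfold dn
  split_ifs
  · omega
  · omega
  · omega
  · omega

theorem cu_next (n h k : ℕ) (hk : 1 ≤ k) (hk' : k ≤ 2 * n + 1) : cu n h (2 * n) k = cu n (h + 1) 0 k := by
  unfold cu
  split_ifs with h1 h2 h3 h3
  · rfl
  all_goals
    unfold hh dn at *
    split_ifs at * <;> first | rfl | (exfalso; omega)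

theorem PS_zero (n : ℕ) : PS n 0 0 = ∅ := by
  ext t
  rw [mem_PS]
  simp only [notMem_empty, iff_false]
  unfold dn
  simp
  omega

/-- current sites of the other regions do not change -/
theorem cu_succ {n h i k : ℕ} (hi : i < 2 * n) (hk : k ≠ jj n h i) : cu n h (i + 1) k = cu n h i k := by
  unfold cu hh
  have h1 : dn n h (i + 1) k ↔ dn n h i k := by
    rw [dn_succ hi]
    constructor
    · rintro (h | h)
      · exact h
      · exact absurd h hk
    · exact Or.inl
  simp only [h1]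

theorem cu_self {n h i : ℕ} (hi : i < 2 * n) (hj : jj n h i % 2 = 1) :
    cu n h i (jj n h i) = lo (jj n h i, h) := by
  have h1 := jj_bd (h := h) hi
  unfold cu hh lo
  rw [if_neg (by omega), if_neg (dn_jj hi)]
  simp only
  by_cases h2 : h % 2 = 0
  · rw [if_pos h2, if_pos (by omega)]
  · rw [if_neg h2, if_neg (by omega)]

theorem cu_self_succ {n h i : ℕ} (hi : i < 2 * n) (hj : jj n h i % 2 = 1) :
    cu n h (i + 1) (jj n h i) = FKH.hi (jj n h i, h) := by
  have h1 := jj_bd (h := h) hi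
  have h2 : dn n h (i + 1) (jj n h i) := (dn_succ hi).2 (Or.inr rfl)
  unfold cu hh FKH.hi
  rw [if_neg (by omega), if_pos h2]
  simp only
  by_cases h2 : h % 2 = 0
  · rw [if_neg (by omega), if_pos (by omega)]
  · rw [if_pos (by omega), if_neg (by omega)]

end FKH
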