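import Pool.Agent.Lib.MP_216314_pr.H.HProc

/-!
# One step of the process

`t = (jj n h i, h)`. Odd column: if the edge is open nothing changes, if it is closed the region `jj` is cut off. Even column: if the edge is
open the regions `jj - 1` and `jj + 1` are merged.
-/

set_option autoImplicit false

namespace FKH

open Finset

/-- the tile of the step -/
def tt (n h i : ℕ) : ℕ × ℕ := (jj n h i, h)

theorem lo_fst (t : ℕ × ℕ) : (lo t).1 = t.1 ∨ (lo t).1 = t.1 + 1 := by
  unfold lo
  split_ifs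
  · exact Or.inl rfl
  · exact Or.inr rfl

theorem lo_snd (t : ℕ × ℕ) : (lo t).2 = t.2 := by
  unfold lo
  split_ifs
  · rfl
  · rfl

theorem hi_fst (t : ℕ × ℕ) : (hi t).1 = t.1 ∨ (hi t).1 = t.1 + 1 := by
  unfold hi
  split_ifs
  · exact Or.inr rfl
  · exact Or.inl rfl

theorem hi_snd (t : ℕ × ℕ) : (hi t).2 = t.2 + 1 := by
  unfold hi
  split_ifs
  · rfl
  · rfl

theorem hi_tt {n h i : ℕ} (hj : jj n h i % 2 = 1) :
    hi (tt n h i) = (if h % 2 = 0 then (jj n h i + 1, h + 1) else (jj n h i, h + 1)) := by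
  unfold hi tt
  simp only
  by_cases h2 : h % 2 = 0
  · rw [if_pos h2, if_pos (by omega)]
  · rw [if_neg h2, if_neg (by omega)]

/-- the new site is not in the wired column -/
theorem hi_col {n h i : ℕ} (hi' : i < 2 * n) (hj : jj n h i % 2 = 1) :
    (hi (tt n h i)).1 ≠ 2 * n + 1 := by
  have h1 := jj_bd (h := h) hi'
  rcases hi_fst (tt n h i) with h2 | h2
  · rw [h2]
    show jj n h i ≠ _
    omega
  · rw [h2]
    show jj n h i + 1 ≠ _
    omega

/-- the new site is not an end point of a processed tile -/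
theorem hi_new {n h i : ℕ} (hi' : i < 2 * n) (hj : jj n h i % 2 = 1) {t : ℕ × ℕ} (ht : t ∈ PS n h i) :
    lo t ≠ hi (tt n h i) ∧ hi t ≠ hi (tt n h i) := by
  have h1 := jj_bd (h := h) hi'
  rw [mem_PS] at ht
  obtain ⟨h2, h3⟩ := ht
  rw [hi_tt hj]
  have e1 := lo_snd t
  have e2 := hi_snd t
  have e3 := hi_fst t
  constructor
  · intro he
    have : (lo t).2 = h + 1 := by
      rw [he]
      split_ifs
      · rfl
      · rfl
    omega
  · intro he
    have h4 : (hi t).2 = h + 1 := by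
      rw [he]
      split_ifs
      · rfl
      · rfl
    have h5 : t.2 = h := by omega
    have h6 : dn n h i t.1 := by
      rcases h3 with h3 | h3
      · omega
      · exact h3.2
    by_cases hp : h % 2 = 0
    · rw [if_pos hp] at he
      have h7 : (hi t).1 = jj n h i + 1 := by rw [he]
      unfold dn at h6
      rw [if_pos hp] at h6
      have h8 : jj n h i = i + 1 := by unfold jj; rw [if_pos hp]
      omega
    · rw [if_neg hp] at he
      have h7 : (hi t).1 = jj n h i := by rw [he]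
      unfold dn at h6
      rw [if_neg hp] at h6
      have h8 : jj n h i = 2 * n - i := by unfold jj; rw [if_neg hp]
      omega

/-- the new site is not a current site of another region -/
theorem cu_new {n h i l : ℕ} (hi' : i < 2 * n) (hj : jj n h i % 2 = 1) (hl : l % 2 = 1)
    (hl' : l ≤ 2 * n + 1) (hlj : l ≠ jj n h i) : cu n h i l ≠ hi (tt n h i) := by
  have h1 := jj_bd (h := h) hi'
  by_cases h2 : l = 2 * n + 1
  · intro he
    apply hi_col hi' hj
    rw [← he, h2]
    unfold cu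
    rw [if_pos rfl]
  · rw [hi_tt hj]
    unfold cu hh
    rw [if_neg h2]
    by_cases hp : h % 2 = 0
    · have h8 : jj n h i = i + 1 := by unfold jj; rw [if_pos hp]
      rw [if_pos hp]
      by_cases hd : dn n h i l
      · rw [if_pos hd, if_neg (by omega)]
        unfold dn at hd
        rw [if_pos hp] at hd
        intro he
        rw [Prod.mk.injEq] at he
        omega
      · rw [if_neg hd, if_pos hp]
        intro he
        rw [Prod.mk.injEq] at he
        omega
    · rw [if_neg hp]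
      by_cases hd : dn n h i l
      · rw [if_pos hd, if_pos (by omega)]
        intro he
        rw [Prod.mk.injEq] at he
        exact hlj he.1
      · rw [if_neg hd, if_neg hp]
        intro he
        rw [Prod.mk.injEq] at he
        omega

theorem wire {n : ℕ} {c : Finset (ℕ × ℕ)} {y : ℕ} (hy : y % 2 = 0) :
    Cn n c (2 * n + 1, y) (2 * n + 1, 0) :=
  Relation.EqvGen.rel _ _ (Or.inr ⟨⟨rfl, hy⟩, ⟨rfl, rfl⟩⟩)

/-- the end points of an even tile are the current sites of the neighbouring regions -/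
theorem ends_even {n h i : ℕ} (hi' : i < 2 * n) (hj : jj n h i % 2 = 0) (c : Finset (ℕ × ℕ)) :
    (Cn n c (lo (tt n h i)) (cu n h i (jj n h i + 1)) ∧ Cn n c (hi (tt n h i)) (cu n h i (jj n h i - 1))) ∨
    (Cn n c (lo (tt n h i)) (cu n h i (jj n h i - 1)) ∧ Cn n c (hi (tt n h i)) (cu n h i (jj n h i + 1))) := by
  have h1 := jj_bd (h := h) hi'
  by_cases hp : h % 2 = 0
  · have h8 : jj n h i = i + 1 := by unfold jj; rw [if_pos hp]
    have e1 : lo (tt n h i) = (jj n h i + 1, h) := by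
      unfold lo tt
      rw [if_neg (by simp only; omega)]
    have e2 : hi (tt n h i) = (jj n h i, h + 1) := by
      unfold hi tt
      rw [if_neg (by simp only; omega)]
    have e3 : cu n h i (jj n h i - 1) = (jj n h i, h + 1) := by
      have : dn n h i (jj n h i - 1) := by
        unfold dn
        rw [if_pos hp]
        omega
      unfold cu hh
      rw [if_neg (by omega), if_pos this, if_neg (by omega), Prod.mk.injEq]
      omega
    left
    constructor
    · rw [e1]
      by_cases h2 : jj n h i = 2 * n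
      · rw [h2]
        unfold cu
        rw [if_pos rfl]
        exact wire hp
      · have : ¬ dn n h i (jj n h i + 1) := by
          unfold dn
          rw [if_pos hp]
          omega
        unfold cu hh
        rw [if_neg (by omega), if_neg this, if_pos hp]
        exact Cn.refl _
    · rw [e2, e3]
      exact Cn.refl _
  · have h8 : jj n h i = 2 * n - i := by unfold jj; rw [if_neg hp]
    have e1 : lo (tt n h i) = (jj n h i, h) := by
      unfold lo tt
      rw [if_pos (by simp only; omega)]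
    have e2 : hi (tt n h i) = (jj n h i + 1, h + 1) := by
      unfold hi tt
      rw [if_pos (by simp only; omega)]
    have e3 : cu n h i (jj n h i - 1) = (jj n h i, h) := by
      have : ¬ dn n h i (jj n h i - 1) := by
        unfold dn
        rw [if_neg hp]
        omega
      unfold cu hh
      rw [if_neg (by omega), if_neg this, if_neg (by omega), Prod.mk.injEq]
      omega
    right
    constructor
    · rw [e1, e3]
      exact Cn.refl _
    · rw [e2]
      by_cases h2 : jj n h i = 2 * n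
      · rw [h2]
        unfold cu
        rw [if_pos rfl]
        exact wire (by omega)
      · have : dn n h i (jj n h i + 1) := by
          unfold dn
          rw [if_neg hp]
          omega
        unfold cu hh
        rw [if_neg (by omega), if_pos this, if_pos (by omega)]
        exact Cn.refl _

section steps

variable {n h i : ℕ} {c : Finset (ℕ × ℕ)}

/-- even column, closed -/
theorem even_closed (hi' : i < 2 * n) (hj : jj n h i % 2 = 0) {u : ℕ × ℕ} {l : ℕ} (hl : l % 2 = 1) :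
    Cn n c u (cu n h (i + 1) l) ↔ Cn n c u (cu n h i l) := by
  rw [cu_succ hi' (by omega : l ≠ jj n h i)]

/-- even column, open -/
theorem even_open (hi' : i < 2 * n) (hj : jj n h i % 2 = 0) {u : ℕ × ℕ} {l : ℕ} (hl : l % 2 = 1) :
    Cn n (insert (tt n h i) c) u (cu n h (i + 1) l) ↔ Cn n c u (cu n h i l) ∨
      (Cn n c u (cu n h i (jj n h i - 1)) ∧ Cn n c (cu n h i (jj n h i + 1)) (cu n h i l)) ∨
      (Cn n c u (cu n h i (jj n h i + 1)) ∧ Cn n c (cu n h i (jj n h i - 1)) (cu n h i l)) := by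
  rw [cu_succ hi' (by omega : l ≠ jj n h i), Cn_insert]
  rcases ends_even hi' hj c with ⟨h1, h2⟩ | ⟨h1, h2⟩
  · constructor
    · rintro (h3 | ⟨h3, h4⟩ | ⟨h3, h4⟩)
      · exact Or.inl h3
      · exact Or.inr (Or.inr ⟨h3.trans h1, h2.symm.trans h4⟩)
      · exact Or.inr (Or.inl ⟨h3.trans h2, h1.symm.trans h4⟩)
    · rintro (h3 | ⟨h3, h4⟩ | ⟨h3, h4⟩)
      · exact Or.inl h3
      · exact Or.inr (Or.inr ⟨h3.trans h2.symm, h1.trans h4⟩)
      · exact Or.inr (Or.inl ⟨h3.trans h1.symm, h2.trans h4⟩)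
  · constructor
    · rintro (h3 | ⟨h3, h4⟩ | ⟨h3, h4⟩)
      · exact Or.inl h3
      · exact Or.inr (Or.inl ⟨h3.trans h1, h2.symm.trans h4⟩)
      · exact Or.inr (Or.inr ⟨h3.trans h2, h1.symm.trans h4⟩)
    · rintro (h3 | ⟨h3, h4⟩ | ⟨h3, h4⟩)
      · exact Or.inl h3
      · exact Or.inr (Or.inl ⟨h3.trans h1.symm, h2.trans h4⟩)
      · exact Or.inr (Or.inr ⟨h3.trans h2.symm, h1.trans h4⟩)

/-- nothing is connected to the new site -/
theorem new_iso (hc : c ⊆ PS n h i) (hi' : i < 2 * n) (hj : jj n h i % 2 = 1) {u v : ℕ × ℕ}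
    (h1 : Cn n c u v) : u = hi (tt n h i) ↔ v = hi (tt n h i) :=
  Cn.eq_of_isolated (hi_col hi' hj) (fun _ ht => hi_new hi' hj (hc ht)) h1

/-- odd column, closed -/
theorem odd_closed (hc : c ⊆ PS n h i) (hi' : i < 2 * n) (hj : jj n h i % 2 = 1) {u : ℕ × ℕ}
    (hu : u ≠ hi (tt n h i)) {l : ℕ} :
    Cn n c u (cu n h (i + 1) l) ↔ l ≠ jj n h i ∧ Cn n c u (cu n h i l) := by
  by_cases h1 : l = jj n h i
  · rw [h1, cu_self_succ hi' hj]
    constructor
    · intro h2
      exact absurd ((new_iso hc hi' hj h2).2 rfl) hu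
    · rintro ⟨h2, _⟩
      exact absurd rfl h2
  · rw [cu_succ hi' h1]
    exact ⟨fun h2 => ⟨h1, h2⟩, fun h2 => h2.2⟩

/-- odd column, open -/
theorem odd_open (hc : c ⊆ PS n h i) (hi' : i < 2 * n) (hj : jj n h i % 2 = 1) {u : ℕ × ℕ}
    (hu : u ≠ hi (tt n h i)) {l : ℕ} (hl : l % 2 = 1) (hl' : l ≤ 2 * n + 1) :
    Cn n (insert (tt n h i) c) u (cu n h (i + 1) l) ↔ Cn n c u (cu n h i l) := by
  rw [Cn_insert]
  by_cases h1 : l = jj n h i
  · rw [h1, cu_self_succ hi' hj, cu_self hi' hj]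
    constructor
    · rintro (h2 | ⟨h2, _⟩ | ⟨h2, _⟩)
      · exact absurd ((new_iso hc hi' hj h2).2 rfl) hu
      · exact h2
      · exact absurd ((new_iso hc hi' hj h2).2 rfl) hu
    · intro h2
      exact Or.inr (Or.inl ⟨h2, Cn.refl _⟩)
  · rw [cu_succ hi' h1]
    constructor
    · rintro (h2 | ⟨_, h2⟩ | ⟨h2, _⟩)
      · exact h2
      · exact absurd ((new_iso hc hi' hj h2).1 rfl) (cu_new hi' hj hl hl' h1)
      · exact absurd ((new_iso hc hi' hj h2).2 rfl) hu
    · exact Or.inl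

/-! ### The relation of the regions -/

theorem RG_even_closed (hi' : i < 2 * n) (hj : jj n h i % 2 = 0) {k l : ℕ} (hk : k % 2 = 1)
    (hl : l % 2 = 1) : RG n h (i + 1) c k l ↔ RG n h i c k l := by
  unfold RG
  rw [even_closed hi' hj hl, cu_succ hi' (by omega : k ≠ jj n h i)]

theorem RG_even_open (hi' : i < 2 * n) (hj : jj n h i % 2 = 0) {k l : ℕ} (hk : k % 2 = 1)
    (hl : l % 2 = 1) : RG n h (i + 1) (insert (tt n h i) c) k l ↔ RG n h i c k l ∨
      (RG n h i c k (jj n h i - 1) ∧ RG n h i c (jj n h i + 1) l) ∨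
      (RG n h i c k (jj n h i + 1) ∧ RG n h i c (jj n h i - 1) l) := by
  unfold RG
  rw [even_open hi' hj hl, cu_succ hi' (by omega : k ≠ jj n h i)]

theorem RG_odd_closed (hc : c ⊆ PS n h i) (hi' : i < 2 * n) (hj : jj n h i % 2 = 1) {k l : ℕ}
    (hk : k % 2 = 1) (hk' : k ≤ 2 * n + 1) (hl : l % 2 = 1) (hl' : l ≤ 2 * n + 1) :
    RG n h (i + 1) c k l ↔ k = l ∨ (k ≠ jj n h i ∧ l ≠ jj n h i ∧ RG n h i c k l) := by
  unfold RG
  by_cases h1 : k = jj n h i
  · by_cases h2 : l = jj n h i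
    · rw [h1, h2]
      exact ⟨fun _ => Or.inl rfl, fun _ => Cn.refl _⟩
    · have h3 : cu n h (i + 1) k = hi (tt n h i) := by rw [h1, cu_self_succ hi' hj]; rfl
      rw [h3, cu_succ hi' h2]
      constructor
      · intro h4
        exact absurd ((new_iso hc hi' hj h4).1 rfl) (cu_new hi' hj hl hl' h2)
      · rintro (h4 | ⟨h4, _⟩)
        · exact absurd (h4.symm.trans h1) h2
        · exact absurd h1 h4
  · have h3 : cu n h (i + 1) k = cu n h i k := cu_succ hi' h1
    rw [h3, odd_closed hc hi' hj (cu_new hi' hj hk hk' h1)]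
    constructor
    · rintro ⟨h4, h5⟩
      exact Or.inr ⟨h1, h4, h5⟩
    · rintro (h4 | ⟨_, h4, h5⟩)
      · rw [← h4]
        exact ⟨h1, Cn.refl _⟩
      · exact ⟨h4, h5⟩

theorem RG_odd_open (hc : c ⊆ PS n h i) (hi' : i < 2 * n) (hj : jj n h i % 2 = 1) {k l : ℕ}
    (hk : k % 2 = 1) (hk' : k ≤ 2 * n + 1) (hl : l % 2 = 1) (hl' : l ≤ 2 * n + 1) :
    RG n h (i + 1) (insert (tt n h i) c) k l ↔ RG n h i c k l := by
  unfold RG
  by_cases h1 : k = jj n h i
  · by_cases h2 : l = jj n h i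
    · rw [h1, h2]
      exact ⟨fun _ => Cn.refl _, fun _ => Cn.refl _⟩
    · have h3 : cu n h (i + 1) l = cu n h i l := cu_succ hi' h2
      have h4 := odd_open hc hi' hj (cu_new hi' hj hl hl' h2) hk hk'
      rw [h3]
      exact ⟨fun h => (h4.1 h.symm).symm, fun h => (h4.2 h.symm).symm⟩
  · have h3 : cu n h (i + 1) k = cu n h i k := cu_succ hi' h1
    rw [h3, odd_open hc hi' hj (cu_new hi' hj hk hk' h1) hl hl']

/-! ### The mark -/

theorem MK_even_closed (hi' : i < 2 * n) (hj : jj n h i % 2 = 0) {u : ℕ × ℕ} {l : ℕ} (hl : l % 2 = 1) :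
    MK n h (i + 1) c u l ↔ MK n h i c u l := even_closed hi' hj hl

theorem MK_even_open (hi' : i < 2 * n) (hj : jj n h i % 2 = 0) {u : ℕ × ℕ} {l : ℕ} (hl : l % 2 = 1) :
    MK n h (i + 1) (insert (tt n h i) c) u l ↔ MK n h i c u l ∨
      (MK n h i c u (jj n h i - 1) ∧ RG n h i c (jj n h i + 1) l) ∨
      (MK n h i c u (jj n h i + 1) ∧ RG n h i c (jj n h i - 1) l) := even_open hi' hj hl

theorem ne_new {u : ℕ × ℕ} (hu : u.2 ≤ h) : u ≠ hi (tt n h i) := by
  intro he
  have h1 := hi_snd (tt n h i)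
  rw [← he] at h1
  have h2 : (tt n h i).2 = h := rfl
  omega

theorem MK_odd_closed (hc : c ⊆ PS n h i) (hi' : i < 2 * n) (hj : jj n h i % 2 = 1) {u : ℕ × ℕ}
    (hu : u.2 ≤ h) {l : ℕ} : MK n h (i + 1) c u l ↔ l ≠ jj n h i ∧ MK n h i c u l :=
  odd_closed hc hi' hj (ne_new hu)

theorem MK_odd_open (hc : c ⊆ PS n h i) (hi' : i < 2 * n) (hj : jj n h i % 2 = 1) {u : ℕ × ℕ}
    (hu : u.2 ≤ h) {l : ℕ} (hl : l % 2 = 1) (hl' : l ≤ 2 * n + 1) :
    MK n h (i + 1) (insert (tt n h i) c) u l ↔ MK n h i c u l :=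
  odd_open hc hi' hj (ne_new hu) hl hl'

end steps

/-! ### Start, change of slab, end -/

theorem RG_zero {n k l : ℕ} (hk : k % 2 = 1) (hk' : k ≤ 2 * n + 1) (hl : l % 2 = 1)
    (hl' : l ≤ 2 * n + 1) : RG n 0 0 ∅ k l ↔ k = l := by
  have h1 : ∀ {u v : ℕ × ℕ}, Cn n ∅ u v → u = v ∨ (u.1 = 2 * n + 1 ∧ v.1 = 2 * n + 1) := by
    intro u v h
    induction h with
    | rel x y h =>
      rcases h with ⟨t, ht, _⟩ | ⟨h1, h2⟩
      · exact absurd ht (notMem_empty _)
      · exact Or.inr ⟨h1.1, h2.1⟩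
    | refl x => exact Or.inl rfl
    | symm x y _ ih =>
      rcases ih with h | h
      · exact Or.inl h.symm
      · exact Or.inr ⟨h.2, h.1⟩
    | trans x y z _ _ ih1 ih2 =>
      rcases ih1 with h | h
      · rw [h]
        exact ih2
      · rcases ih2 with h' | h'
        · rw [← h']
          exact Or.inr h
        · exact Or.inr ⟨h.1, h'.2⟩
  have h2 : ∀ k, k % 2 = 1 → k ≤ 2 * n + 1 → cu n 0 0 k = (k, 0) := by
    intro k hk hk'
    unfold cu hh
    by_cases h3 : k = 2 * n + 1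
    · rw [if_pos h3, h3]
    · have h4 : ¬ dn n 0 0 k := by
        unfold dn
        simp
        omega
      rw [if_neg h3, if_neg h4, if_pos rfl]
  unfold RG
  rw [h2 k hk hk', h2 l hl hl']
  constructor
  · intro h
    rcases h1 h with h3 | h3
    · rw [Prod.mk.injEq] at h3
      exact h3.1
    · exact h3.1.trans h3.2.symm
  · intro h
    rw [h]
    exact Cn.refl _

theorem RG_next (n h : ℕ) (c : Finset (ℕ × ℕ)) {k l : ℕ} (hk : k % 2 = 1) (hk' : k ≤ 2 * n + 1)
    (hl : l % 2 = 1) (hl' : l ≤ 2 * n + 1) : RG n (h + 1) 0 c k l ↔ RG n h (2 * n) c k l := by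
  unfold RG
  rw [cu_next n h k (by omega) hk', cu_next n h l (by omega) hl']

theorem MK_next (n h : ℕ) (c : Finset (ℕ × ℕ)) (u : ℕ × ℕ) {l : ℕ} (hl : l % 2 = 1)
    (hl' : l ≤ 2 * n + 1) : MK n (h + 1) 0 c u l ↔ MK n h (2 * n) c u l := by
  unfold MK
  rw [cu_next n h l (by omega) hl']

/-- when `h` is even the site `(1, h)` is the current site of the region `1` -/
theorem MK_start {n h : ℕ} (hn : 1 ≤ n) (hh' : h % 2 = 0) (c : Finset (ℕ × ℕ)) (l : ℕ) :
    MK n h 0 c (1, h) l ↔ RG n h 0 c 1 l := by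
  have h1 : cu n h 0 1 = (1, h) := by
    have : ¬ dn n h 0 1 := by
      unfold dn
      rw [if_pos hh']
      omega
    unfold cu hh
    rw [if_neg (by omega), if_neg this, if_pos hh']
  unfold MK RG
  rw [h1]

/-- the wired region -/
theorem MK_end (n h i : ℕ) (c : Finset (ℕ × ℕ)) (u : ℕ × ℕ) :
    MK n h i c u (2 * n + 1) ↔ Cn n c u (2 * n + 1, 0) := by
  unfold MK cu
  rw [if_pos rfl]

end FKH
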